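import Pool.Agent.Helper53.EN.Test

/-! # The interval engine: soundness of the numeric test -/

set_option autoImplicit false

namespace Pool.Agent.PEN.E5.EN

noncomputable section

/-- the test function of helper9 / helper19, a sum of cosines of multiples of `α` -/
def HH53 (p q r a : ℝ) : ℝ :=
  (Real.cos ((p + 1) * a) + Real.cos ((p - 1) * a) + Real.cos ((q + 1) * a) +
      Real.cos ((q - 1) * a) - 1 - Real.cos (2 * a) - Real.cos ((p - q + 1) * a) -
      Real.cos ((p - q - 1) * a) + Real.cos ((p - q) * a) - Real.cos ((p + q) * a) -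
      2 * Real.cos (r * a) + Real.cos ((r + 1) * a) + Real.cos ((r - 1) * a)) / 2

theorem HH_Hf (p q r a : ℝ) : HH53 p q r a = Hf (Real.cos a) (Real.cos (p * a))
    (Real.sin (p * a)) (Real.cos (q * a)) (Real.sin (q * a)) (Real.cos (r * a)) :=
  (Hf_sum a p q r).symm

/-- the range is correct -/
structure ParOK (P : Par) : Prop where
  hAB : P.A < P.B
  hB : P.B ≤ 1124422439
  hw : P.B ≤ P.A + 3543349
  cA : |((P.ca : ℕ) : ℝ) / 1099511627776 - Real.cos ((P.A : ℝ) / 1073741824)| ≤ 15 / 10 ^ 7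
  a1 : 492 / 1000 ≤ (P.ca : ℝ) / 1099511627776
  a2 : (P.ca : ℝ) / 1099511627776 ≤ 508 / 1000
  cB : |((P.cb : ℕ) : ℝ) / 1099511627776 - Real.cos ((P.B : ℝ) / 1073741824)| ≤ 15 / 10 ^ 7
  b1 : 492 / 1000 ≤ (P.cb : ℝ) / 1099511627776
  b2 : (P.cb : ℝ) / 1099511627776 ≤ 508 / 1000

theorem cos_end {A ca : ℕ} (hA : A ≤ 1124422439)
    (h : cosN (Nat.mul 1024 A) = Nat.add ca 1099511627776) :
    |((ca : ℕ) : ℝ) / 1099511627776 - Real.cos ((A : ℝ) / 1073741824)| ≤ 15 / 10 ^ 7 := by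
  have h0 : 1024 * A ≤ 3454225732608 := by omega
  have h1 := cosN_ok (n := 1024 * A) h0
  have e0 : cosN (1024 * A) = ca + 1099511627776 := h
  rw [e0] at h1
  have e : (((1024 * A : ℕ) : ℝ) / 1099511627776) = (A : ℝ) / 1073741824 := by
    push_cast
    ring
  rw [e] at h1
  have e2 : ((ca : ℕ) : ℝ) / 1099511627776 - Real.cos ((A : ℝ) / 1073741824) =
      (((ca + 1099511627776 : ℕ) : ℝ) / 1099511627776 -
      (1 + Real.cos ((A : ℝ) / 1073741824))) := by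
    push_cast
    ring
  rw [e2]
  exact h1

theorem parOK_of {P : Par} (h : parChk P = true) : ParOK P := by
  unfold parChk at h
  simp only [Bool.and_eq_true, Nat.ble_eq] at h
  obtain ⟨⟨h1, h2, h3⟩, ⟨h4, h5, h6⟩, h7, h8, h9⟩ := h
  have h3' : P.B ≤ P.A + 3543349 := h3
  have h1' : P.A < P.B := h1
  have g1 : ∀ c : ℕ, 540959720866 ≤ c → (492 : ℝ) / 1000 ≤ (c : ℝ) / 1099511627776 := by
    intro c hc
    have : ((540959720866 : ℕ) : ℝ) ≤ c := Nat.cast_le.2 hc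
    push_cast at this
    rw [le_div_iff₀ (by norm_num)]
    linarith
  have g2 : ∀ c : ℕ, c ≤ 558551906910 → (c : ℝ) / 1099511627776 ≤ 508 / 1000 := by
    intro c hc
    have : (c : ℝ) ≤ ((558551906910 : ℕ) : ℝ) := Nat.cast_le.2 hc
    push_cast at this
    rw [div_le_iff₀ (by norm_num)]
    linarith
  exact
    { hAB := h1'
      hB := h2
      hw := h3'
      cA := cos_end (by omega) (Nat.eq_of_beq_eq_true h4)
      a1 := g1 _ h5
      a2 := g2 _ h6
      cB := cos_end h2 (Nat.eq_of_beq_eq_true h7)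
      b1 := g1 _ h8
      b2 := g2 _ h9 }

theorem par0_ok : ParOK par0 := parOK_of (by decide +kernel)

theorem pos_neg (ca X Y Z sx sy : ℕ) (h : ca ≤ 1099511627776) :
    ((pos ca X Y sx sy : ℕ) : ℝ) - (neg ca X Y Z : ℕ) =
    1099511627776 ^ 3 * Hf ((ca : ℝ) / 1099511627776) ((X : ℝ) / 1099511627776 - 1)
      ((sx : ℝ) / 1099511627776) ((Y : ℝ) / 1099511627776 - 1) ((sy : ℝ) / 1099511627776)
      ((Z : ℝ) / 1099511627776 - 1) := by
  have e1 : pos ca X Y sx sy = 2199023255552 * ca * (X + Y) +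
      (1099511627776 - ca) * (1208925819614629174706176 + sx * sy) := rfl
  have e2 : neg ca X Y Z = ca * (3626777458843887524118528 + ca * 1099511627776 + X * Y) +
      (1099511627776 - ca) * 1099511627776 * Z := rfl
  rw [e1, e2]
  push_cast [Nat.cast_sub h]
  unfold Hf
  ring

/-- the common part of the two tests -/
theorem h_approx {A ca p q r : ℕ} (hA : A ≤ 1124422439)
    (hca : |((ca : ℕ) : ℝ) / 1099511627776 - Real.cos ((A : ℝ) / 1073741824)| ≤ 15 / 10 ^ 7)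
    (h1 : 492 / 1000 ≤ (ca : ℝ) / 1099511627776) (h2 : (ca : ℝ) / 1099511627776 ≤ 508 / 1000)
    (hp : p ≤ 3072) (hq : q ≤ 3072) (hr : r ≤ 3072) :
    |Hf ((ca : ℝ) / 1099511627776) ((cosN (Nat.mul p A) : ℝ) / 1099511627776 - 1)
      ((sinN (Nat.mul p A) : ℝ) / 1099511627776) ((cosN (Nat.mul q A) : ℝ) / 1099511627776 - 1)
      ((sinN (Nat.mul q A) : ℝ) / 1099511627776) ((cosN (Nat.mul r A) : ℝ) / 1099511627776 - 1) -
      HH53 ((p : ℝ) / 1024) ((q : ℝ) / 1024) ((r : ℝ) / 1024) ((A : ℝ) / 1073741824)| ≤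
      28 / 10 ^ 6 := by
  have key : ∀ m : ℕ, m ≤ 3072 → Nat.mul m A ≤ 3454225732608 ∧
      ((Nat.mul m A : ℕ) : ℝ) / 1099511627776 = (m : ℝ) / 1024 * ((A : ℝ) / 1073741824) := by
    intro m hm
    have e : Nat.mul m A = m * A := rfl
    constructor
    · rw [e]
      calc m * A ≤ 3072 * 1124422439 := Nat.mul_le_mul hm hA
        _ = 3454225732608 := by norm_num
    · rw [e]
      push_cast
      ring
  have kc : ∀ m : ℕ, m ≤ 3072 → |((cosN (Nat.mul m A) : ℝ) / 1099511627776 - 1) -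
      Real.cos ((m : ℝ) / 1024 * ((A : ℝ) / 1073741824))| ≤ 15 / 10 ^ 7 := by
    intro m hm
    obtain ⟨a1, a2⟩ := key m hm
    have h := cosN_ok a1
    rw [a2] at h
    rw [show ((cosN (Nat.mul m A) : ℝ) / 1099511627776 - 1) -
      Real.cos ((m : ℝ) / 1024 * ((A : ℝ) / 1073741824)) =
      (cosN (Nat.mul m A) : ℝ) / 1099511627776 -
      (1 + Real.cos ((m : ℝ) / 1024 * ((A : ℝ) / 1073741824))) by ring]
    exact h
  have ks : ∀ m : ℕ, m ≤ 3072 → |((sinN (Nat.mul m A) : ℝ) / 1099511627776) -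
      Real.sin ((m : ℝ) / 1024 * ((A : ℝ) / 1073741824))| ≤ 13 / 10 ^ 6 := by
    intro m hm
    obtain ⟨a1, a2⟩ := key m hm
    have h := sinN_ok a1
    rw [a2] at h
    exact h
  have hca' := abs_le.1 hca
  rw [HH_Hf]
  refine Hf_err hca (kc p hp) (ks p hp) (kc q hq) (ks q hq) (kc r hr) ?_ ?_
    (Real.abs_cos_le_one _) (Real.abs_sin_le_one _) (Real.abs_cos_le_one _)
    (Real.abs_sin_le_one _) (Real.abs_cos_le_one _)
  · linarith [hca'.2]
  · linarith [hca'.1]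

theorem hP_ok {A ca p q r : ℕ} (hA : A ≤ 1124422439)
    (hca : |((ca : ℕ) : ℝ) / 1099511627776 - Real.cos ((A : ℝ) / 1073741824)| ≤ 15 / 10 ^ 7)
    (h1 : 492 / 1000 ≤ (ca : ℝ) / 1099511627776) (h2 : (ca : ℝ) / 1099511627776 ≤ 508 / 1000)
    (hp : p ≤ 3072) (hq : q ≤ 3072) (hr : r ≤ 3072) (h : hP A ca p q r = true) :
    112 / 10 ^ 6 ≤ HH53 ((p : ℝ) / 1024) ((q : ℝ) / 1024) ((r : ℝ) / 1024)
      ((A : ℝ) / 1073741824) := by
  have h3 := abs_le.1 (h_approx hA hca h1 h2 hp hq hr)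
  have h4 : neg ca (cosN (Nat.mul p A)) (cosN (Nat.mul q A)) (cosN (Nat.mul r A)) +
      186091919409888222206532988439249 ≤
      pos ca (cosN (Nat.mul p A)) (cosN (Nat.mul q A)) (sinN (Nat.mul p A)) (sinN (Nat.mul q A)) :=
    Nat.le_of_ble_eq_true h
  have h5 : ((neg ca (cosN (Nat.mul p A)) (cosN (Nat.mul q A)) (cosN (Nat.mul r A)) : ℕ) : ℝ) +
      186091919409888222206532988439249 ≤
      ((pos ca (cosN (Nat.mul p A)) (cosN (Nat.mul q A)) (sinN (Nat.mul p A))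
        (sinN (Nat.mul q A)) : ℕ) : ℝ) := by exact_mod_cast h4
  have hle : ca ≤ 1099511627776 := by
    have : (ca : ℝ) ≤ 1099511627776 := by
      rw [div_le_iff₀ (by norm_num)] at h2
      linarith
    exact_mod_cast this
  have h6 := pos_neg ca (cosN (Nat.mul p A)) (cosN (Nat.mul q A)) (cosN (Nat.mul r A))
    (sinN (Nat.mul p A)) (sinN (Nat.mul q A)) hle
  generalize Hf ((ca : ℝ) / 1099511627776) ((cosN (Nat.mul p A) : ℝ) / 1099511627776 - 1)
      ((sinN (Nat.mul p A) : ℝ) / 1099511627776) ((cosN (Nat.mul q A) : ℝ) / 1099511627776 - 1)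
      ((sinN (Nat.mul q A) : ℝ) / 1099511627776)
      ((cosN (Nat.mul r A) : ℝ) / 1099511627776 - 1) = v at h3 h6
  have h7 : (14 : ℝ) / 10 ^ 5 ≤ v := by
    have : (14 : ℝ) / 10 ^ 5 * 1099511627776 ^ 3 ≤ v * 1099511627776 ^ 3 := by
      have h8 : (14 : ℝ) / 10 ^ 5 * 1099511627776 ^ 3 ≤ 186091919409888222206532988439249 := by
        norm_num
      linarith
    exact le_of_mul_le_mul_right this (by norm_num)
  linarith [h3.1, h3.2]

theorem hN_ok {A ca p q r : ℕ} (hA : A ≤ 1124422439)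
    (hca : |((ca : ℕ) : ℝ) / 1099511627776 - Real.cos ((A : ℝ) / 1073741824)| ≤ 15 / 10 ^ 7)
    (h1 : 492 / 1000 ≤ (ca : ℝ) / 1099511627776) (h2 : (ca : ℝ) / 1099511627776 ≤ 508 / 1000)
    (hp : p ≤ 3072) (hq : q ≤ 3072) (hr : r ≤ 3072) (h : hN A ca p q r = true) :
    HH53 ((p : ℝ) / 1024) ((q : ℝ) / 1024) ((r : ℝ) / 1024)
      ((A : ℝ) / 1073741824) ≤ -(112 / 10 ^ 6) := by
  have h3 := abs_le.1 (h_approx hA hca h1 h2 hp hq hr)
  have h4 : pos ca (cosN (Nat.mul p A)) (cosN (Nat.mul q A)) (sinN (Nat.mul p A))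
      (sinN (Nat.mul q A)) + 186091919409888222206532988439249 ≤
      neg ca (cosN (Nat.mul p A)) (cosN (Nat.mul q A)) (cosN (Nat.mul r A)) :=
    Nat.le_of_ble_eq_true h
  have h5 : ((pos ca (cosN (Nat.mul p A)) (cosN (Nat.mul q A)) (sinN (Nat.mul p A))
        (sinN (Nat.mul q A)) : ℕ) : ℝ) + 186091919409888222206532988439249 ≤
      ((neg ca (cosN (Nat.mul p A)) (cosN (Nat.mul q A)) (cosN (Nat.mul r A)) : ℕ) : ℝ) := by
    exact_mod_cast h4
  have hle : ca ≤ 1099511627776 := by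
    have : (ca : ℝ) ≤ 1099511627776 := by
      rw [div_le_iff₀ (by norm_num)] at h2
      linarith
    exact_mod_cast this
  have h6 := pos_neg ca (cosN (Nat.mul p A)) (cosN (Nat.mul q A)) (cosN (Nat.mul r A))
    (sinN (Nat.mul p A)) (sinN (Nat.mul q A)) hle
  generalize Hf ((ca : ℝ) / 1099511627776) ((cosN (Nat.mul p A) : ℝ) / 1099511627776 - 1)
      ((sinN (Nat.mul p A) : ℝ) / 1099511627776) ((cosN (Nat.mul q A) : ℝ) / 1099511627776 - 1)
      ((sinN (Nat.mul q A) : ℝ) / 1099511627776)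
      ((cosN (Nat.mul r A) : ℝ) / 1099511627776 - 1) = v at h3 h6
  have h7 : v ≤ -((14 : ℝ) / 10 ^ 5) := by
    have : v * 1099511627776 ^ 3 ≤ -((14 : ℝ) / 10 ^ 5) * 1099511627776 ^ 3 := by
      have h8 : (14 : ℝ) / 10 ^ 5 * 1099511627776 ^ 3 ≤ 186091919409888222206532988439249 := by
        norm_num
      linarith
    exact le_of_mul_le_mul_right this (by norm_num)
  linarith [h3.1, h3.2]

theorem rg_ok {p q r : ℕ} (h : rg p q r = true) :
    (1024 ≤ p ∧ p ≤ 3072) ∧ (1024 ≤ q ∧ q ≤ 3072) ∧ r ≤ 3072 := by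
  unfold rg at h
  simp only [Bool.and_eq_true, Nat.ble_eq] at h
  exact ⟨h.1, h.2.1, h.2.2⟩

/-- interpolation between the two ends of the range of `α` -/
theorem between {P : Par} (hP : ParOK P) {p q r : ℕ} (h : rg p q r = true) {al : ℝ}
    (h1 : (P.A : ℝ) / 1073741824 ≤ al) (h2 : al ≤ (P.B : ℝ) / 1073741824) :
    ∃ l : ℝ, 0 ≤ l ∧ l ≤ 1 ∧
    |HH53 ((p : ℝ) / 1024) ((q : ℝ) / 1024) ((r : ℝ) / 1024) al -
      ((1 - l) * HH53 ((p : ℝ) / 1024) ((q : ℝ) / 1024) ((r : ℝ) / 1024)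
        ((P.A : ℝ) / 1073741824) +
      l * HH53 ((p : ℝ) / 1024) ((q : ℝ) / 1024) ((r : ℝ) / 1024)
        ((P.B : ℝ) / 1073741824))| ≤ 88 / 10 ^ 6 := by
  obtain ⟨⟨p1, p3⟩, ⟨q1, q3⟩, r3⟩ := rg_ok h
  have hAB : (P.A : ℝ) < P.B := by exact_mod_cast hP.hAB
  have hw : (P.B : ℝ) ≤ P.A + 3543349 := by exact_mod_cast hP.hw
  set a : ℝ := (P.A : ℝ) / 1073741824 with ha
  set b : ℝ := (P.B : ℝ) / 1073741824 with hb
  have hab : 0 < b - a := by
    rw [ha, hb]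
    linarith
  have hab2 : b - a ≤ 3543349 / 1073741824 := by
    rw [ha, hb]
    linarith
  have p1' : (1024 : ℝ) ≤ p := by exact_mod_cast p1
  have p3' : (p : ℝ) ≤ 3072 := by exact_mod_cast p3
  have q1' : (1024 : ℝ) ≤ q := by exact_mod_cast q1
  have q3' : (q : ℝ) ≤ 3072 := by exact_mod_cast q3
  have r3' : (r : ℝ) ≤ 3072 := by exact_mod_cast r3
  refine ⟨(al - a) / (b - a), div_nonneg (by linarith) hab.le, ?_, ?_⟩
  · rw [div_le_one hab]
    linarith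
  · set l := (al - a) / (b - a) with hl
    have l0 : 0 ≤ l := div_nonneg (by linarith) hab.le
    have l1 : l ≤ 1 := by
      rw [hl, div_le_one hab]
      linarith
    have e : (1 - l) * a + l * b = al := by
      have : l * (b - a) = al - a := by
        rw [hl]
        field_simp
      linarith
    have h3 := Hf_interp (p := (p : ℝ) / 1024) (q := (q : ℝ) / 1024) (r := (r : ℝ) / 1024)
      (a := a) (b := b) (l := l) l0 l1 (by rw [le_div_iff₀ (by norm_num)]; linarith)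
      (by rw [div_le_iff₀ (by norm_num)]; linarith)
      (by rw [le_div_iff₀ (by norm_num)]; linarith)
      (by rw [div_le_iff₀ (by norm_num)]; linarith)
      (by positivity)
      (by rw [div_le_iff₀ (by norm_num)]; linarith)
      (F := fun x => HH53 ((p : ℝ) / 1024) ((q : ℝ) / 1024) ((r : ℝ) / 1024) x)
      (fun x => HH_Hf _ _ _ _)
    simp only [e] at h3
    refine h3.trans ?_
    have h4 : (b - a) ^ 2 ≤ (3543349 / 1073741824) ^ 2 := pow_le_pow_left₀ hab.le hab2 2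
    have h5 : 64 * (3543349 / 1073741824 : ℝ) ^ 2 / 8 ≤ 88 / 10 ^ 6 := by norm_num
    linarith

theorem chkP_ok {P : Par} (hp : ParOK P) {p q r : ℕ} (h : chkP P p q r = true) {al : ℝ}
    (h1 : (P.A : ℝ) / 1073741824 ≤ al) (h2 : al ≤ (P.B : ℝ) / 1073741824) :
    0 ≤ HH53 ((p : ℝ) / 1024) ((q : ℝ) / 1024) ((r : ℝ) / 1024) al := by
  unfold chkP at h
  simp only [Bool.and_eq_true] at h
  obtain ⟨h0, hA, hB⟩ := h
  obtain ⟨⟨p1, p3⟩, ⟨q1, q3⟩, r3⟩ := rg_ok h0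
  obtain ⟨l, l0, l1, h3⟩ := between hp h0 h1 h2
  have a1 := hP_ok (hp.hAB.le.trans hp.hB) hp.cA hp.a1 hp.a2 p3 q3 r3 hA
  have b1 := hP_ok hp.hB hp.cB hp.b1 hp.b2 p3 q3 r3 hB
  have h4 := abs_le.1 h3
  have a2 := mul_le_mul_of_nonneg_left a1 (show 0 ≤ 1 - l by linarith)
  have b2 := mul_le_mul_of_nonneg_left b1 l0
  linarith [h4.1]

theorem chkN_ok {P : Par} (hp : ParOK P) {p q r : ℕ} (h : chkN P p q r = true) {al : ℝ}
    (h1 : (P.A : ℝ) / 1073741824 ≤ al) (h2 : al ≤ (P.B : ℝ) / 1073741824) :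
    HH53 ((p : ℝ) / 1024) ((q : ℝ) / 1024) ((r : ℝ) / 1024) al ≤ 0 := by
  unfold chkN at h
  simp only [Bool.and_eq_true] at h
  obtain ⟨h0, hA, hB⟩ := h
  obtain ⟨⟨p1, p3⟩, ⟨q1, q3⟩, r3⟩ := rg_ok h0
  obtain ⟨l, l0, l1, h3⟩ := between hp h0 h1 h2
  have a1 := hN_ok (hp.hAB.le.trans hp.hB) hp.cA hp.a1 hp.a2 p3 q3 r3 hA
  have b1 := hN_ok hp.hB hp.cB hp.b1 hp.b2 p3 q3 r3 hB
  have h4 := abs_le.1 h3
  have a2 := mul_le_mul_of_nonneg_left a1 (show 0 ≤ 1 - l by linarith)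
  have b2 := mul_le_mul_of_nonneg_left b1 l0
  linarith [h4.2]

end

end Pool.Agent.PEN.E5.EN
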