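import Pool.Agent.Helper53.EN.Chk

/-! # The interval engine

Boxes are lists of pairs of natural numbers, certificates are lists of natural numbers (one word
per step, base `4096`). -/

set_option autoImplicit false

namespace Pool.Agent.PEN.E5.EN

/-- a linear constraint `bl + ∑ pᵢ xᵢ ≤ br + ∑ nᵢ xᵢ` -/
abbrev Lc := List (ℕ × ℕ) × ℕ × ℕ

/-- a system: linear constraints and pentagons (variable and units of the five corners) -/
structure Sys where
  lin : List Lc
  blk : List (List (ℕ × ℕ))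
  par : Par

/-- a system on the full range -/
def S2 (lin : List Lc) (blk : List (List (ℕ × ℕ))) : Sys := ⟨lin, blk, par0⟩

/-- left side: `∑ (pᵢ - nᵢ)⁺ loᵢ` -/
def lft : List (ℕ × ℕ) → List (ℕ × ℕ) → ℕ
  | c :: C, b :: B => Nat.add (Nat.mul (Nat.sub c.1 c.2) b.1) (lft C B)
  | _, _ => 0

/-- right side: `∑ (nᵢ - pᵢ)⁺ hiᵢ` -/
def rgt : List (ℕ × ℕ) → List (ℕ × ℕ) → ℕ
  | c :: C, b :: B => Nat.add (Nat.mul (Nat.sub c.2 c.1) b.2) (rgt C B)
  | _, _ => 0

/-- `C + m D` -/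
def cadd (m : ℕ) : List (ℕ × ℕ) → List (ℕ × ℕ) → List (ℕ × ℕ)
  | c :: C, d :: D => (Nat.add c.1 (Nat.mul m d.1), Nat.add c.2 (Nat.mul m d.2)) :: cadd m C D
  | C, [] => C
  | [], d :: D => (Nat.mul m d.1, Nat.mul m d.2) :: cadd m [] D

def nth {α : Type} (d : α) : List α → ℕ → α
  | [], _ => d
  | a :: _, 0 => a
  | _ :: L, n + 1 => nth d L n

def lcadd (m : ℕ) (C D : Lc) : Lc :=
  (cadd m C.1 D.1, Nat.add C.2.1 (Nat.mul m D.2.1), Nat.add C.2.2 (Nat.mul m D.2.2))

/-- the combination of constraints described by the digits of `w` -/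
def comb (L : List Lc) : ℕ → ℕ → Lc
  | 0, _ => ([], 0, 0)
  | f + 1, w =>
    match Nat.mod w 4096 with
    | 0 => ([], 0, 0)
    | c + 1 => lcadd (Nat.mod (Nat.div w 4096) 4096) (comb L f (Nat.div w 16777216))
        (nth ([], 0, 0) L c)

def setHi (v : ℕ) : List (ℕ × ℕ) → ℕ → List (ℕ × ℕ)
  | [], _ => []
  | b :: B, 0 => (b.1, v) :: B
  | b :: B, n + 1 => b :: setHi v B n

def setLo (v : ℕ) : List (ℕ × ℕ) → ℕ → List (ℕ × ℕ)
  | [], _ => []
  | b :: B, 0 => (v, b.2) :: B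
  | b :: B, n + 1 => b :: setLo v B n

def cor3 (t : ℕ) : ℕ := Nat.mod t 5

/-- test of a lower bound of the opposite corner -/
def relLo (P : Par) (b : List (ℕ × ℕ)) (B : List (ℕ × ℕ)) (t v : ℕ) : Bool :=
  Nat.ble v (Nat.mul 1024 (nth (0, 0) b (cor3 (Nat.add t 3))).2) &&
  chkP P (Nat.sub (Nat.mul 1024 (nth (0, 0) b (cor3 t)).2)
      (nth (0, 0) B (nth (0, 0) b (cor3 t)).1).1)
    (Nat.sub (Nat.mul 1024 (nth (0, 0) b (cor3 (Nat.add t 1))).2)
      (nth (0, 0) B (nth (0, 0) b (cor3 (Nat.add t 1))).1).1)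
    (Nat.sub (Nat.mul 1024 (nth (0, 0) b (cor3 (Nat.add t 3))).2) v)

/-- test of an upper bound of the opposite corner -/
def relHi (P : Par) (b : List (ℕ × ℕ)) (B : List (ℕ × ℕ)) (t v : ℕ) : Bool :=
  Nat.ble v (Nat.mul 1024 (nth (0, 0) b (cor3 (Nat.add t 3))).2) &&
  chkN P (Nat.sub (Nat.mul 1024 (nth (0, 0) b (cor3 t)).2)
      (nth (0, 0) B (nth (0, 0) b (cor3 t)).1).2)
    (Nat.sub (Nat.mul 1024 (nth (0, 0) b (cor3 (Nat.add t 1))).2)
      (nth (0, 0) B (nth (0, 0) b (cor3 (Nat.add t 1))).1).2)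
    (Nat.sub (Nat.mul 1024 (nth (0, 0) b (cor3 (Nat.add t 3))).2) v)

def opp (b : List (ℕ × ℕ)) (t : ℕ) : ℕ := (nth (0, 0) b (cor3 (Nat.add t 3))).1

/-- an upper bound `v` of the variable `i` from the constraint `C` -/
def tlHi (C : Lc) (B : List (ℕ × ℕ)) (i v : ℕ) : Bool :=
  Nat.ble 1 (Nat.sub (nth (0, 0) C.1 i).1 (nth (0, 0) C.1 i).2) && Nat.ble
    (Nat.add (Nat.add C.2.2 (rgt C.1 B))
      (Nat.mul (Nat.sub (nth (0, 0) C.1 i).1 (nth (0, 0) C.1 i).2) (nth (0, 0) B i).1))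
    (Nat.add (Nat.add C.2.1 (lft C.1 B))
      (Nat.mul (Nat.sub (nth (0, 0) C.1 i).1 (nth (0, 0) C.1 i).2) v))

/-- a lower bound `v` of the variable `i` from the constraint `C` -/
def tlLo (C : Lc) (B : List (ℕ × ℕ)) (i v : ℕ) : Bool :=
  Nat.ble 1 (Nat.sub (nth (0, 0) C.1 i).2 (nth (0, 0) C.1 i).1) && Nat.ble
    (Nat.add (Nat.add C.2.2 (rgt C.1 B))
      (Nat.mul (Nat.sub (nth (0, 0) C.1 i).2 (nth (0, 0) C.1 i).1) v))
    (Nat.add (Nat.add C.2.1 (lft C.1 B))
      (Nat.mul (Nat.sub (nth (0, 0) C.1 i).2 (nth (0, 0) C.1 i).1) (nth (0, 0) B i).2))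

/-- a contradiction from the constraint `C` -/
def far (C : Lc) (B : List (ℕ × ℕ)) : Bool :=
  Nat.ble (Nat.succ (Nat.add C.2.2 (rgt C.1 B))) (Nat.add C.2.1 (lft C.1 B))

/-- digits of a word -/
def d1 (w : ℕ) : ℕ := Nat.mod (Nat.div w 4096) 4096
def d2 (w : ℕ) : ℕ := Nat.mod (Nat.div w 16777216) 4096
def d3 (w : ℕ) : ℕ := Nat.mod (Nat.div w 68719476736) 4096

/-- the checker; returns the rest of the tape if the box is refuted -/
def run (S : Sys) : ℕ → List (ℕ × ℕ) → List ℕ → Option (List ℕ)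
  | 0, _, _ => none
  | _ + 1, _, [] => none
  | f + 1, B, w :: T =>
    match Nat.mod w 4096 with
    | 0 =>
      match Nat.ble (Nat.succ (nth (0, 0) B (d1 w)).2) (nth (0, 0) B (d1 w)).1 with
      | true => some T
      | false => none
    | 1 =>
      match far (comb S.lin 40 (Nat.div w 4096)) B with
      | true => some T
      | false => none
    | 2 =>
      match tlHi (comb S.lin 40 (Nat.div w 68719476736)) B (d1 w) (d2 w) with
      | true => run S f (setHi (d2 w) B (d1 w)) T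
      | false => none
    | 3 =>
      match tlLo (comb S.lin 40 (Nat.div w 68719476736)) B (d1 w) (d2 w) with
      | true => run S f (setLo (d2 w) B (d1 w)) T
      | false => none
    | 4 =>
      match relLo S.par (nth [] S.blk (d1 w)) B (d2 w) (d3 w) with
      | true => run S f (setLo (d3 w) B (opp (nth [] S.blk (d1 w)) (d2 w))) T
      | false => none
    | 5 =>
      match relHi S.par (nth [] S.blk (d1 w)) B (d2 w) (d3 w) with
      | true => run S f (setHi (d3 w) B (opp (nth [] S.blk (d1 w)) (d2 w))) T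
      | false => none
    | _ =>
      match run S f (setHi (d2 w) B (d1 w)) T with
      | none => none
      | some T' => run S f (setLo (d2 w) B (d1 w)) T'

/-- the certificate refutes the box -/
def accept (S : Sys) (f : ℕ) (B : List (ℕ × ℕ)) (T : List ℕ) : Bool :=
  match run S f B T with
  | some _ => true
  | none => false

end Pool.Agent.PEN.E5.EN
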