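import Pool.Agent.Helper53.EN.Sound
import Pool.Agent.E5.T5i19

/-! # The interval engine: glue to the pentagons -/

set_option autoImplicit false

namespace Pool.Agent.PEN.E5.EN

open Pool.Agent.PEN.E5 Pool.Agent.PEN.Cl

noncomputable section

theorem rel_of_pg {d t1 t2 t3 t4 t5 : ℝ} (hd : 0 < d) (h : Pg19 d t1 t2 t3 t4 t5) :
    RelOK (alpha d) t1 t2 t4 :=
  { up := fun _ _ _ h1 h2 h3 h4 h5 h6 => h.up hd h1 h2 h3 h4 h5 h6
    lo := fun _ _ _ h1 h2 h3 h4 h5 h6 => h.lo hd h1 h2 h3 h4 h5 h6 }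

/-- a pentagon gives a block -/
theorem blk_of_pg {d : ℝ} (hd : 0 < d) {X : List ℝ} {a1 a2 a3 a4 a5 : ℕ × ℕ}
    (h : Pg19 d (ang53 (alpha d) X a1) (ang53 (alpha d) X a2) (ang53 (alpha d) X a3)
      (ang53 (alpha d) X a4) (ang53 (alpha d) X a5)) :
    BlkOK (alpha d) X [a1, a2, a3, a4, a5] :=
  BlkOK_mk (rel_of_pg hd h) (rel_of_pg hd h.rot) (rel_of_pg hd h.rot.rot)
    (rel_of_pg hd h.rot.rot.rot) (rel_of_pg hd h.rot.rot.rot.rot)

theorem ang_eq {al g : ℝ} {X : List ℝ} {i u : ℕ} (h : nth 0 X i = 1024 * g) :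
    ang53 al X (i, u) = al * ((u : ℝ) - g) := by
  unfold ang53
  simp only [h]
  ring

/-- five gaps with their variables and units -/
theorem blk5 {d : ℝ} (hd : 0 < d) {X : List ℝ} {g1 g2 g3 g4 g5 : ℝ} {i1 i2 i3 i4 i5 : ℕ}
    {u1 u2 u3 u4 u5 : ℕ}
    (h : Pg19 d (alpha d * ((u1 : ℝ) - g1)) (alpha d * ((u2 : ℝ) - g2)) (alpha d * ((u3 : ℝ) - g3))
      (alpha d * ((u4 : ℝ) - g4)) (alpha d * ((u5 : ℝ) - g5)))
    (h1 : nth 0 X i1 = 1024 * g1) (h2 : nth 0 X i2 = 1024 * g2) (h3 : nth 0 X i3 = 1024 * g3)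
    (h4 : nth 0 X i4 = 1024 * g4) (h5 : nth 0 X i5 = 1024 * g5) :
    BlkOK (alpha d) X [(i1, u1), (i2, u2), (i3, u3), (i4, u4), (i5, u5)] := by
  apply blk_of_pg hd
  rw [ang_eq h1, ang_eq h2, ang_eq h3, ang_eq h4, ang_eq h5]
  exact h

/-- the block of a pentagon with 12 units -/
theorem blk12 {d : ℝ} (hd : 0 < d) {X : List ℝ} {a c b b' c' : ℝ} {i1 i2 i3 i4 i5 : ℕ}
    (h : P12g19 d a c b b' c')
    (h1 : nth 0 X i1 = 1024 * a) (h2 : nth 0 X i2 = 1024 * c) (h3 : nth 0 X i3 = 1024 * b)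
    (h4 : nth 0 X i4 = 1024 * b') (h5 : nth 0 X i5 = 1024 * c') :
    BlkOK (alpha d) X [(i1, 2), (i2, 3), (i3, 2), (i4, 2), (i5, 3)] :=
  blk5 hd (by push_cast; exact h.pg) h1 h2 h3 h4 h5

/-- all constraints hold -/
def AllL (X : List ℝ) : List Lc → Prop
  | [] => True
  | c :: L => LcOK X c ∧ AllL X L

theorem AllL_mem {X : List ℝ} : ∀ {L : List Lc}, AllL X L → ∀ c ∈ L, LcOK X c
  | [], _ => fun c hc => absurd hc (by simp)
  | a :: L, h => fun c hc => by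
    rcases List.mem_cons.1 hc with rfl | h'
    · exact h.1
    · exact AllL_mem h.2 c h'

/-- all blocks -/
def AllB (al : ℝ) (X : List ℝ) : List (List (ℕ × ℕ)) → Prop
  | [] => True
  | c :: L => BlkOK al X c ∧ AllB al X L

theorem AllB_mem {al : ℝ} {X : List ℝ} : ∀ {L : List (List (ℕ × ℕ))}, AllB al X L →
    ∀ c ∈ L, BlkOK al X c
  | [], _ => fun c hc => absurd hc (by simp)
  | a :: L, h => fun c hc => by
    rcases List.mem_cons.1 hc with rfl | h'
    · exact h.1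
    · exact AllB_mem h.2 c h'

/-- **the engine for small diameters** -/
theorem refute {d : ℝ} (hd : 0 < d) (hd3 : d ≤ 3 / 20) (X : List ℝ) {lin : List Lc}
    {blk : List (List (ℕ × ℕ))} {B : List (ℕ × ℕ)} {T : List ℕ} {f : ℕ}
    (h : accept (S2 lin blk) f B T = true) (hL : AllL X lin) (hK : AllB (alpha d) X blk)
    (hB : inB B X) : False := by
  have h1 := (alpha_small19 hd hd3).2
  have h2 := (alpha_lt hd).le
  have h3 := Real.pi_lt_d6
  exact accept_sound h1 (by linarith) ⟨AllL_mem hL, AllB_mem hK⟩ h hB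

/-- **the engine on two ranges of `α`** with the common end `m / 2 ^ 30` -/
theorem refute2 {d : ℝ} (hd : 0 < d) (hd3 : d ≤ 3 / 20) (X : List ℝ) {lin : List Lc}
    {blk : List (List (ℕ × ℕ))} {B : List (ℕ × ℕ)} {T T' : List ℕ} {f : ℕ} {m cm : ℕ}
    (q : parChk ⟨1120879090, 552892764021, m, cm⟩ = true)
    (q' : parChk ⟨m, cm, 1124422439, 549753481306⟩ = true)
    (h : accept ⟨lin, blk, ⟨1120879090, 552892764021, m, cm⟩⟩ f B T = true)
    (h' : accept ⟨lin, blk, ⟨m, cm, 1124422439, 549753481306⟩⟩ f B T' = true)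
    (hL : AllL X lin) (hK : AllB (alpha d) X blk) (hB : inB B X) : False := by
  have h1 := (alpha_small19 hd hd3).2
  have h2 := (alpha_lt hd).le
  have h3 := Real.pi_lt_d6
  have h4 := alpha_pos hd
  rcases le_total (alpha d) ((m : ℝ) / 1073741824) with hm | hm
  · refine accept_soundP (parOK_of q) h4 ?_ hm ⟨AllL_mem hL, AllB_mem hK⟩ h hB
    show ((1120879090 : ℕ) : ℝ) / 1073741824 ≤ alpha d
    push_cast
    linarith
  · refine accept_soundP (parOK_of q') h4 hm ?_ ⟨AllL_mem hL, AllB_mem hK⟩ h' hB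
    show alpha d ≤ ((1124422439 : ℕ) : ℝ) / 1073741824
    push_cast
    linarith

end

end Pool.Agent.PEN.E5.EN
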