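import Pool.Agent.Helper53.EN.X45
import Pool.Agent.Helper53.EN.Glue

/-! # The interval engine: model of a fact about pentagons with 12 units -/

set_option autoImplicit false

namespace Pool.Agent.PEN.E5.EN

open Pool.Agent.PEN.E5 Pool.Agent.PEN.Cl

noncomputable section

/-- the weak side is at most `460 / 1024` -/
theorem f45_53 {d a c b b' c' : ℝ} (hd : 0 < d) (hd3 : d ≤ 3 / 20) (P : P12g19 d a c b b' c')
    (h : b + b' ≤ 564 / 1024) : False := by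
  obtain ⟨_, Pa0, Pc0, Pb0, Pe0, Pf0, Pa1, Pc1, Pb1, Pe1, Pf1, Ps0, Ps1, Pac, Pcb, Pbc, Pca,
    Pax, Pwk⟩ := id P
  refine refute hd hd3 [1024 * a, 1024 * c, 1024 * b, 1024 * b', 1024 * c'] e45_acc ?_ ?_ ?_
  · unfold e45_lin
    simp only [AllL, LcOK, dv]
    push_cast
    refine ⟨?_, ?_, ?_, trivial⟩ <;> linarith
  · exact ⟨blk12 hd P rfl rfl rfl rfl rfl, trivial⟩
  · unfold e45_box
    simp only [inB]
    push_cast
    refine ⟨⟨?_, ?_⟩, ⟨?_, ?_⟩, ⟨?_, ?_⟩, ⟨?_, ?_⟩, ⟨?_, ?_⟩, trivial⟩ <;> linarith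

end

end Pool.Agent.PEN.E5.EN
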