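import Pool.Agent.Helper53.EN.Trig

/-! # Fixed point cosines for the interval engine

All functions are written with the operations of `ℕ` that the kernel evaluates directly. The scale
is `2 ^ 40 = 1099511627776`; a cosine `c` is stored as `2 ^ 40 (1 + c)`. -/

set_option autoImplicit false

namespace Pool.Agent.PEN.E5.EN

/-- `2 ^ 40 cos (n / 2 ^ 43)` up to rounding, `n2 = n ^ 2` -/
def c0 (n2 : ℕ) : ℕ :=
  Nat.div (Nat.mul (nat_lit 1099511627776) (Nat.sub
    (Nat.add (Nat.add (nat_lit 1444904128073745052314817164040314772701835943176017107954680968813761411935745429084111688459379182529413120)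
      (Nat.mul (nat_lit 10057001986932395632976652365673904017497975489329889280) (Nat.mul n2 n2)))
      (Nat.mul (Nat.mul n2 n2) (Nat.mul n2 n2)))
    (Nat.add (Nat.mul (nat_lit 9337474076097177998956764231100592889287691563437255084141859574398114774164439040) n2)
      (Nat.mul (nat_lit 4332790137498830962146934784) (Nat.mul (Nat.mul n2 n2) n2)))))
    (nat_lit 1444904128073745052314817164040314772701835943176017107954680968813761411935745429084111688459379182529413120)

/-- `2 ^ 40 sin (n / 2 ^ 43)` up to rounding -/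
def s0 (n n2 : ℕ) : ℕ :=
  Nat.div (Nat.mul (nat_lit 1099511627776) (Nat.mul n (Nat.sub
    (Nat.add (nat_lit 718357284780885402355475168976707429821283963523563520) (Nat.mul n2 n2))
    (Nat.mul (nat_lit 1547425049106725343623905280) n2))))
    (nat_lit 6318737500113431201875081661020225939133705724032946675258658652160)

def sq2 (c : ℕ) : ℕ := Nat.div (Nat.mul (nat_lit 2) (Nat.mul c c)) (nat_lit 1099511627776)
def sc2 (s c : ℕ) : ℕ := Nat.div (Nat.mul (nat_lit 2) (Nat.mul s c)) (nat_lit 1099511627776)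
def sbK (c : ℕ) : ℕ := Nat.sub c (nat_lit 1099511627776)
def Ksb (c : ℕ) : ℕ := Nat.sub (nat_lit 1099511627776) c
def c1 (n2 : ℕ) : ℕ := sbK (sq2 (c0 n2))
def C2 (n2 : ℕ) : ℕ := sq2 (c1 n2)
def C3 (n2 : ℕ) : ℕ := sq2 (Nat.add (sbK (C2 n2)) (Ksb (C2 n2)))
def s3 (n n2 : ℕ) : ℕ := sc2 (sc2 (sc2 (s0 n n2) (c0 n2)) (c1 n2)) (sbK (C2 n2))

/-- `2 ^ 40 (1 + cos (n / 2 ^ 40))` -/
def cosN (n : ℕ) : ℕ := C3 (Nat.mul n n)
/-- `2 ^ 40 sin (n / 2 ^ 40)` -/
def sinN (n : ℕ) : ℕ := s3 n (Nat.mul n n)

noncomputable section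

theorem ndiv_real {a b : ℕ} (hb : 0 < b) :
    ((a / b : ℕ) : ℝ) ≤ (a : ℝ) / b ∧ (a : ℝ) / b < ((a / b : ℕ) : ℝ) + 1 := by
  have hb' : (0 : ℝ) < b := by exact_mod_cast hb
  constructor
  · exact Nat.cast_div_le
  · rw [div_lt_iff₀ hb']
    have := Nat.lt_div_mul_add (a := a) hb
    have h2 : a < (a / b + 1) * b := by
      rw [add_mul, one_mul]
      exact this
    exact_mod_cast h2

theorem sq2_eq (c : ℕ) : sq2 c = (2 * (c * c)) / 1099511627776 := rfl
theorem sc2_eq (s c : ℕ) : sc2 s c = (2 * (s * c)) / 1099511627776 := rfl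
theorem sbK_eq (c : ℕ) : sbK c = c - 1099511627776 := rfl
theorem Ksb_eq (c : ℕ) : Ksb c = 1099511627776 - c := rfl

theorem c0_ok {n : ℕ} (h1 : n ≤ 3455000000000) :
    |(c0 (Nat.mul n n) : ℝ) / 1099511627776 - Real.cos ((n : ℝ) / 8796093022208)| ≤ 2 / 10 ^ 8 := by
  set u : ℝ := (n : ℝ) / 8796093022208 with hu
  have hn0 : (0 : ℝ) ≤ n := Nat.cast_nonneg n
  have hn1 : (n : ℝ) ≤ 3455000000000 := by exact_mod_cast h1
  have u0 : 0 ≤ u := by positivity
  have u1 : u ≤ 393 / 1000 := by
    rw [hu, div_le_iff₀ (by norm_num)]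
    linarith
  have e0 : c0 (Nat.mul n n) = 1099511627776 * (1444904128073745052314817164040314772701835943176017107954680968813761411935745429084111688459379182529413120 +
      10057001986932395632976652365673904017497975489329889280 * (n * n * (n * n)) +
      n * n * (n * n) * (n * n * (n * n)) -
      (9337474076097177998956764231100592889287691563437255084141859574398114774164439040 * (n * n) +
      4332790137498830962146934784 * (n * n * (n * n) * (n * n)))) /
      1444904128073745052314817164040314772701835943176017107954680968813761411935745429084111688459379182529413120 := rfl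
  have hn2 : n * n ≤ 3455000000000 * 3455000000000 := Nat.mul_le_mul h1 h1
  have hn6 : n * n * (n * n) * (n * n) ≤ 3455000000000 * 3455000000000 *
      (3455000000000 * 3455000000000) * (3455000000000 * 3455000000000) :=
    Nat.mul_le_mul (Nat.mul_le_mul hn2 hn2) hn2
  have hsub : 9337474076097177998956764231100592889287691563437255084141859574398114774164439040 * (n * n) +
      4332790137498830962146934784 * (n * n * (n * n) * (n * n)) ≤
      1444904128073745052314817164040314772701835943176017107954680968813761411935745429084111688459379182529413120 +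
      10057001986932395632976652365673904017497975489329889280 * (n * n * (n * n)) +
      n * n * (n * n) * (n * n * (n * n)) := by
    have g1 := Nat.mul_le_mul_left 9337474076097177998956764231100592889287691563437255084141859574398114774164439040 hn2
    have g2 := Nat.mul_le_mul_left 4332790137498830962146934784 hn6
    have g3 : 9337474076097177998956764231100592889287691563437255084141859574398114774164439040 * (3455000000000 * 3455000000000) +
      4332790137498830962146934784 * (3455000000000 * 3455000000000 *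
      (3455000000000 * 3455000000000) * (3455000000000 * 3455000000000)) ≤
      1444904128073745052314817164040314772701835943176017107954680968813761411935745429084111688459379182529413120 := by norm_num
    omega
  obtain ⟨e1, e2⟩ := ndiv_real (a := 1099511627776 * (1444904128073745052314817164040314772701835943176017107954680968813761411935745429084111688459379182529413120 +
      10057001986932395632976652365673904017497975489329889280 * (n * n * (n * n)) +
      n * n * (n * n) * (n * n * (n * n)) -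
      (9337474076097177998956764231100592889287691563437255084141859574398114774164439040 * (n * n) +
      4332790137498830962146934784 * (n * n * (n * n) * (n * n))))) (b := 1444904128073745052314817164040314772701835943176017107954680968813761411935745429084111688459379182529413120) (by norm_num)
  rw [← e0] at e1 e2
  have e3 : ((1099511627776 * (1444904128073745052314817164040314772701835943176017107954680968813761411935745429084111688459379182529413120 +
      10057001986932395632976652365673904017497975489329889280 * (n * n * (n * n)) +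
      n * n * (n * n) * (n * n * (n * n)) -
      (9337474076097177998956764231100592889287691563437255084141859574398114774164439040 * (n * n) +
      4332790137498830962146934784 * (n * n * (n * n) * (n * n)))) : ℕ) : ℝ) / ((1444904128073745052314817164040314772701835943176017107954680968813761411935745429084111688459379182529413120 : ℕ) : ℝ) =
      1099511627776 * (1 - u ^ 2 / 2 + u ^ 4 / 24 - u ^ 6 / 720 + u ^ 8 / 40320) := by
    have hn : (n : ℝ) = 8796093022208 * u := by
      rw [hu]
      field_simp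
    rw [Nat.cast_mul, Nat.cast_sub hsub]
    push_cast
    rw [hn]
    ring
  rw [e3] at e1 e2
  have b1 := cos_le8 u0
  have b2 := cos_ge6 u0
  have b3 : u ^ 8 / 40320 ≤ 15 / 10 ^ 9 := by
    have : u ^ 8 ≤ (393 / 1000) ^ 8 := pow_le_pow_left₀ u0 u1 8
    have h2 : ((393 : ℝ) / 1000) ^ 8 / 40320 ≤ 15 / 10 ^ 9 := by norm_num
    linarith
  rw [abs_le]
  constructor
  · have : (1 - u ^ 2 / 2 + u ^ 4 / 24 - u ^ 6 / 720 + u ^ 8 / 40320) - 1 / 10 ^ 9 ≤ (c0 (Nat.mul n n) : ℝ) / 1099511627776 := by
      rw [le_div_iff₀ (by norm_num)]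
      linarith
    linarith
  · have : (c0 (Nat.mul n n) : ℝ) / 1099511627776 ≤ (1 - u ^ 2 / 2 + u ^ 4 / 24 - u ^ 6 / 720 + u ^ 8 / 40320) := by
      rw [div_le_iff₀ (by norm_num)]
      linarith
    linarith

theorem s0_ok {n : ℕ} (h1 : n ≤ 3455000000000) :
    |(s0 n (Nat.mul n n) : ℝ) / 1099511627776 - Real.sin ((n : ℝ) / 8796093022208)| ≤ 3 / 10 ^ 7 := by
  set u : ℝ := (n : ℝ) / 8796093022208 with hu
  have hn0 : (0 : ℝ) ≤ n := Nat.cast_nonneg n
  have hn1 : (n : ℝ) ≤ 3455000000000 := by exact_mod_cast h1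
  have u0 : 0 ≤ u := by positivity
  have u1 : u ≤ 393 / 1000 := by
    rw [hu, div_le_iff₀ (by norm_num)]
    linarith
  have e0 : s0 n (Nat.mul n n) = 1099511627776 * (n * (718357284780885402355475168976707429821283963523563520 + n * n * (n * n) -
      1547425049106725343623905280 * (n * n))) / 6318737500113431201875081661020225939133705724032946675258658652160 := rfl
  have hn2 : n * n ≤ 3455000000000 * 3455000000000 := Nat.mul_le_mul h1 h1
  have hsub : 1547425049106725343623905280 * (n * n) ≤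
      718357284780885402355475168976707429821283963523563520 + n * n * (n * n) := by
    have g1 := Nat.mul_le_mul_left 1547425049106725343623905280 hn2
    have g3 : 1547425049106725343623905280 * (3455000000000 * 3455000000000) ≤
      718357284780885402355475168976707429821283963523563520 := by norm_num
    omega
  obtain ⟨e1, e2⟩ := ndiv_real (a := 1099511627776 * (n * (718357284780885402355475168976707429821283963523563520 + n * n * (n * n) -
      1547425049106725343623905280 * (n * n)))) (b := 6318737500113431201875081661020225939133705724032946675258658652160) (by norm_num)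
  rw [← e0] at e1 e2
  have e3 : ((1099511627776 * (n * (718357284780885402355475168976707429821283963523563520 + n * n * (n * n) -
      1547425049106725343623905280 * (n * n))) : ℕ) : ℝ) / ((6318737500113431201875081661020225939133705724032946675258658652160 : ℕ) : ℝ) =
      1099511627776 * (u - u ^ 3 / 6 + u ^ 5 / 120) := by
    have hn : (n : ℝ) = 8796093022208 * u := by
      rw [hu]
      field_simp
    rw [Nat.cast_mul, Nat.cast_mul n, Nat.cast_sub hsub]
    push_cast
    rw [hn]
    ring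
  rw [e3] at e1 e2
  have b1 := sin_le5 u0
  have b2 := sin_ge7 u0
  have b3 : u ^ 7 / 5040 ≤ 29 / 10 ^ 8 := by
    have : u ^ 7 ≤ (393 / 1000) ^ 7 := pow_le_pow_left₀ u0 u1 7
    have h2 : ((393 : ℝ) / 1000) ^ 7 / 5040 ≤ 29 / 10 ^ 8 := by norm_num
    linarith
  rw [abs_le]
  constructor
  · have : (u - u ^ 3 / 6 + u ^ 5 / 120) - 1 / 10 ^ 9 ≤ (s0 n (Nat.mul n n) : ℝ) / 1099511627776 := by
      rw [le_div_iff₀ (by norm_num)]
      linarith
    linarith
  · have : (s0 n (Nat.mul n n) : ℝ) / 1099511627776 ≤ (u - u ^ 3 / 6 + u ^ 5 / 120) := by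
      rw [div_le_iff₀ (by norm_num)]
      linarith
    linarith

/-- error of the square -/
theorem sq2_ok {c : ℕ} {v e : ℝ} (hc : |(c : ℝ) / 1099511627776 - v| ≤ e) (hv : |v| ≤ 1) :
    |(sq2 c : ℝ) / 1099511627776 - 2 * v ^ 2| ≤ 4 * e + 2 * e ^ 2 + 1 / 10 ^ 11 := by
  set C : ℝ := (c : ℝ) / 1099511627776 with hC
  have e0 : 0 ≤ e := (abs_nonneg _).trans hc
  obtain ⟨x1, x2⟩ := ndiv_real (a := 2 * (c * c)) (b := 1099511627776) (by norm_num)
  rw [← sq2_eq] at x1 x2
  have x3 : ((2 * (c * c) : ℕ) : ℝ) / ((1099511627776 : ℕ) : ℝ) = 1099511627776 * (2 * C ^ 2) := by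
    rw [hC]
    push_cast
    ring
  rw [x3] at x1 x2
  have h2 : |2 * C ^ 2 - 2 * v ^ 2| ≤ 4 * e + 2 * e ^ 2 := by
    have h3 : 2 * C ^ 2 - 2 * v ^ 2 = 2 * ((C - v) * (C - v + 2 * v)) := by ring
    rw [h3, abs_mul, abs_mul, abs_two]
    have h4 : |C - v + 2 * v| ≤ e + 2 := by
      refine (abs_add_le _ _).trans ?_
      rw [abs_mul, abs_two]
      linarith
    have h5 := mul_le_mul hc h4 (abs_nonneg _) e0
    linarith
  rw [abs_le] at h2 ⊢
  constructor
  · have : 2 * C ^ 2 - 1 / 10 ^ 11 ≤ (sq2 c : ℝ) / 1099511627776 := by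
      rw [le_div_iff₀ (by norm_num)]
      linarith
    linarith [h2.1]
  · have : (sq2 c : ℝ) / 1099511627776 ≤ 2 * C ^ 2 := by
      rw [div_le_iff₀ (by norm_num)]
      linarith
    linarith [h2.2]

/-- error of the product -/
theorem sc2_ok {s c : ℕ} {v w e f : ℝ} (hc : |(c : ℝ) / 1099511627776 - v| ≤ e)
    (hs : |(s : ℝ) / 1099511627776 - w| ≤ f) (hv : |v| ≤ 1) (hw : |w| ≤ 1) :
    |(sc2 s c : ℝ) / 1099511627776 - 2 * w * v| ≤ 2 * (e + f) + 2 * (e * f) + 1 / 10 ^ 11 := by
  set C : ℝ := (c : ℝ) / 1099511627776 with hC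
  set S : ℝ := (s : ℝ) / 1099511627776 with hS
  have e0 : 0 ≤ e := (abs_nonneg _).trans hc
  have f0 : 0 ≤ f := (abs_nonneg _).trans hs
  obtain ⟨y1, y2⟩ := ndiv_real (a := 2 * (s * c)) (b := 1099511627776) (by norm_num)
  rw [← sc2_eq] at y1 y2
  have y3 : ((2 * (s * c) : ℕ) : ℝ) / ((1099511627776 : ℕ) : ℝ) = 1099511627776 * (2 * (S * C)) := by
    rw [hC, hS]
    push_cast
    ring
  rw [y3] at y1 y2
  have h2 : |2 * (S * C) - 2 * w * v| ≤ 2 * (e + f) + 2 * (e * f) := by
    have h3 : 2 * (S * C) - 2 * w * v = 2 * ((S - w) * (C - v) + (S - w) * v + w * (C - v)) := by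
      ring
    rw [h3, abs_mul, abs_two]
    have g1 : |(S - w) * (C - v)| ≤ f * e := by
      rw [abs_mul]
      exact mul_le_mul hs hc (abs_nonneg _) f0
    have g2 : |(S - w) * v| ≤ f * 1 := by
      rw [abs_mul]
      exact mul_le_mul hs hv (abs_nonneg _) f0
    have g3 : |w * (C - v)| ≤ 1 * e := by
      rw [abs_mul]
      exact mul_le_mul hw hc (abs_nonneg _) (by norm_num)
    have g4 := (abs_add_le ((S - w) * (C - v) + (S - w) * v) (w * (C - v)))
    have g5 := (abs_add_le ((S - w) * (C - v)) ((S - w) * v))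
    nlinarith
  rw [abs_le] at h2 ⊢
  constructor
  · have : 2 * (S * C) - 1 / 10 ^ 11 ≤ (sc2 s c : ℝ) / 1099511627776 := by
      rw [le_div_iff₀ (by norm_num)]
      linarith
    linarith [h2.1]
  · have : (sc2 s c : ℝ) / 1099511627776 ≤ 2 * (S * C) := by
      rw [div_le_iff₀ (by norm_num)]
      linarith
    linarith [h2.2]

/-- truncated subtraction -/
theorem sbK_ok {m : ℕ} {v e : ℝ} (h : |(m : ℝ) / 1099511627776 - (1 + v)| ≤ e) {g : ℝ}
    (hg : 0 ≤ g) (hv : -g ≤ v) : |(sbK m : ℝ) / 1099511627776 - v| ≤ e + g := by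
  rw [sbK_eq]
  have h' := abs_le.1 h
  have e0 : 0 ≤ e := (abs_nonneg _).trans h
  rcases le_total 1099511627776 m with hm | hm
  · rw [Nat.cast_sub hm]
    have : ((m : ℝ) - ((1099511627776 : ℕ) : ℝ)) / 1099511627776 = (m : ℝ) / 1099511627776 - 1 := by
      push_cast
      ring
    rw [this, abs_le]
    constructor <;> linarith [h'.1, h'.2]
  · rw [Nat.sub_eq_zero_of_le hm]
    have hm' : (m : ℝ) / 1099511627776 ≤ 1 := by
      rw [div_le_one (by norm_num)]
      exact_mod_cast hm
    simp only [Nat.cast_zero, zero_div, zero_sub, abs_neg]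
    rw [abs_le]
    constructor <;> linarith [h'.1, h'.2]

theorem abs_ok {m : ℕ} {v e : ℝ} (h : |(m : ℝ) / 1099511627776 - (1 + v)| ≤ e) :
    |((Nat.add (sbK m) (Ksb m) : ℕ) : ℝ) / 1099511627776 - abs v| ≤ e := by
  have e1 : ((Nat.add (sbK m) (Ksb m) : ℕ) : ℝ) / 1099511627776 =
      |(m : ℝ) / 1099511627776 - 1| := by
    have : (Nat.add (sbK m) (Ksb m) : ℕ) = (m - 1099511627776) + (1099511627776 - m) := rfl
    rw [this]
    rcases le_total 1099511627776 m with hm | hm
    · rw [Nat.sub_eq_zero_of_le hm, add_zero, Nat.cast_sub hm]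
      have hm' : (1 : ℝ) ≤ (m : ℝ) / 1099511627776 := by
        rw [one_le_div (by norm_num)]
        exact_mod_cast hm
      rw [abs_of_nonneg (by linarith)]
      push_cast
      ring
    · rw [Nat.sub_eq_zero_of_le hm, zero_add, Nat.cast_sub hm]
      have hm' : (m : ℝ) / 1099511627776 ≤ 1 := by
        rw [div_le_one (by norm_num)]
        exact_mod_cast hm
      rw [abs_of_nonpos (by linarith)]
      push_cast
      ring
  rw [e1]
  refine (abs_abs_sub_abs_le_abs_sub _ _).trans ?_
  have : (m : ℝ) / 1099511627776 - 1 - v = (m : ℝ) / 1099511627776 - (1 + v) := by ring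
  rw [this]
  exact h

theorem chain_ok {n : ℕ} (h1 : n ≤ 3454225732608) :
    |(c1 (Nat.mul n n) : ℝ) / 1099511627776 - Real.cos (2 * ((n : ℝ) / 8796093022208))| ≤ 81 / 10 ^ 9 ∧
    |(C2 (Nat.mul n n) : ℝ) / 1099511627776 - (1 + Real.cos (4 * ((n : ℝ) / 8796093022208)))| ≤
      33 / 10 ^ 8 ∧
    |(C3 (Nat.mul n n) : ℝ) / 1099511627776 - (1 + Real.cos (8 * ((n : ℝ) / 8796093022208)))| ≤
      15 / 10 ^ 7 := by
  set u : ℝ := (n : ℝ) / 8796093022208 with hu
  have hn0 : (0 : ℝ) ≤ n := Nat.cast_nonneg n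
  have hn1 : (n : ℝ) ≤ 3454225732608 := by exact_mod_cast h1
  have u0 : 0 ≤ u := by positivity
  have u1 : u ≤ 393 / 1000 := by
    rw [hu, div_le_iff₀ (by norm_num)]
    linarith
  have a0 := c0_ok (n := n) (by omega)
  rw [← hu] at a0
  have k1 : |(c1 (Nat.mul n n) : ℝ) / 1099511627776 - Real.cos (2 * u)| ≤ 81 / 10 ^ 9 := by
    have h := sq2_ok a0 (Real.abs_cos_le_one u)
    have e : 2 * Real.cos u ^ 2 = 1 + Real.cos (2 * u) := by
      rw [Real.cos_two_mul]
      ring
    rw [e] at h
    have h2 := h.trans (show (4 : ℝ) * (2 / 10 ^ 8) + 2 * (2 / 10 ^ 8) ^ 2 + 1 / 10 ^ 11 ≤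
      81 / 10 ^ 9 by norm_num)
    have hc : 0 ≤ Real.cos (2 * u) := by
      apply Real.cos_nonneg_of_mem_Icc
      have := Real.pi_gt_three
      constructor <;> linarith
    have h3 := sbK_ok h2 (g := 0) le_rfl (by linarith)
    rw [add_zero] at h3
    exact h3
  have k2 : |(C2 (Nat.mul n n) : ℝ) / 1099511627776 - (1 + Real.cos (4 * u))| ≤ 33 / 10 ^ 8 := by
    have h := sq2_ok k1 (Real.abs_cos_le_one _)
    have e : 2 * Real.cos (2 * u) ^ 2 = 1 + Real.cos (4 * u) := by
      rw [show 4 * u = 2 * (2 * u) by ring, Real.cos_two_mul (2 * u)]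
      ring
    rw [e] at h
    exact h.trans (by norm_num)
  refine ⟨k1, k2, ?_⟩
  have h := sq2_ok (v := abs (Real.cos (4 * u))) (abs_ok k2)
    (by rw [abs_abs]; exact Real.abs_cos_le_one _)
  have e : 2 * (abs (Real.cos (4 * u))) ^ 2 = 1 + Real.cos (8 * u) := by
    rw [sq_abs, show 8 * u = 2 * (4 * u) by ring, Real.cos_two_mul (4 * u)]
    ring
  rw [e] at h
  exact h.trans (by norm_num)

theorem cosN_ok {n : ℕ} (h1 : n ≤ 3454225732608) :
    |(cosN n : ℝ) / 1099511627776 - (1 + Real.cos ((n : ℝ) / 1099511627776))| ≤ 15 / 10 ^ 7 := by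
  have h := (chain_ok h1).2.2
  have e : 8 * ((n : ℝ) / 8796093022208) = (n : ℝ) / 1099511627776 := by ring
  rw [e] at h
  exact h

theorem sinN_ok {n : ℕ} (h1 : n ≤ 3454225732608) :
    |(sinN n : ℝ) / 1099511627776 - Real.sin ((n : ℝ) / 1099511627776)| ≤ 13 / 10 ^ 6 := by
  obtain ⟨k1, k2, -⟩ := chain_ok h1
  set u : ℝ := (n : ℝ) / 8796093022208 with hu
  have hn0 : (0 : ℝ) ≤ n := Nat.cast_nonneg n
  have hn1 : (n : ℝ) ≤ 3454225732608 := by exact_mod_cast h1
  have u0 : 0 ≤ u := by positivity
  have u1 : 4 * u ≤ 15708002 / 10000000 := by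
    rw [hu]
    have : 4 * ((n : ℝ) / 8796093022208) = (4 * n) / 8796093022208 := by ring
    rw [this, div_le_iff₀ (by norm_num)]
    linarith
  have a0 := c0_ok (n := n) (by omega)
  have b0 := s0_ok (n := n) (by omega)
  rw [← hu] at a0 b0
  have m1 := sc2_ok a0 b0 (Real.abs_cos_le_one u) (Real.abs_sin_le_one u)
  rw [← Real.sin_two_mul] at m1
  have m1' := m1.trans (show (2 : ℝ) * (2 / 10 ^ 8 + 3 / 10 ^ 7) + 2 * (2 / 10 ^ 8 * (3 / 10 ^ 7)) +
    1 / 10 ^ 11 ≤ 65 / 10 ^ 8 by norm_num)
  have m2 := sc2_ok k1 m1' (Real.abs_cos_le_one _) (Real.abs_sin_le_one _)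
  rw [← Real.sin_two_mul, show 2 * (2 * u) = 4 * u by ring] at m2
  have m2' := m2.trans (show (2 : ℝ) * (81 / 10 ^ 9 + 65 / 10 ^ 8) +
    2 * (81 / 10 ^ 9 * (65 / 10 ^ 8)) + 1 / 10 ^ 11 ≤ 15 / 10 ^ 7 by norm_num)
  have hc : -(43 / 10 ^ 7) ≤ Real.cos (4 * u) := by
    have hpi := Real.pi_gt_d6
    rcases le_total (4 * u) (Real.pi / 2) with h | h
    · have := Real.cos_nonneg_of_mem_Icc (x := 4 * u) ⟨by linarith, h⟩
      linarith
    · have e : Real.cos (4 * u) = -Real.sin (4 * u - Real.pi / 2) := by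
        rw [Real.sin_sub_pi_div_two, neg_neg]
      rw [e]
      have := Real.sin_le (x := 4 * u - Real.pi / 2) (by linarith)
      norm_num at hpi ⊢
      linarith
  have k3 := sbK_ok k2 (g := 43 / 10 ^ 7) (by norm_num) hc
  have m3 := sc2_ok k3 m2' (Real.abs_cos_le_one _) (Real.abs_sin_le_one _)
  rw [← Real.sin_two_mul, show 2 * (4 * u) = (n : ℝ) / 1099511627776 by rw [hu]; ring] at m3
  refine m3.trans ?_
  norm_num

end

end Pool.Agent.PEN.E5.EN
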