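import Pool.Agent.Helper53.EN.Eng

/-! # The interval engine: soundness -/

set_option autoImplicit false

namespace Pool.Agent.PEN.E5.EN

noncomputable section

/-- the numbers lie in the box -/
def inB : List (ℕ × ℕ) → List ℝ → Prop
  | [], [] => True
  | b :: B, x :: X => ((b.1 : ℝ) ≤ x ∧ x ≤ b.2) ∧ inB B X
  | _, _ => False

/-- value of a linear form -/
def dv : List (ℕ × ℕ) → List ℝ → ℝ
  | c :: C, x :: X => ((c.1 : ℝ) - c.2) * x + dv C X
  | _, _ => 0

theorem dv_nil_l (X : List ℝ) : dv [] X = 0 := by cases X <;> rfl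
theorem dv_nil_r (C : List (ℕ × ℕ)) : dv C [] = 0 := by cases C <;> rfl

theorem dv_cadd (m : ℕ) : ∀ (C D : List (ℕ × ℕ)) (X : List ℝ),
    dv (cadd m C D) X = dv C X + m * dv D X
  | c :: C, d :: D, x :: X => by
    have ih := dv_cadd m C D X
    simp only [cadd, dv, ih]
    have e1 : ((Nat.add c.1 (Nat.mul m d.1) : ℕ) : ℝ) = c.1 + m * d.1 := by
      have : Nat.add c.1 (Nat.mul m d.1) = c.1 + m * d.1 := rfl
      rw [this]; push_cast; ring
    have e2 : ((Nat.add c.2 (Nat.mul m d.2) : ℕ) : ℝ) = c.2 + m * d.2 := by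
      have : Nat.add c.2 (Nat.mul m d.2) = c.2 + m * d.2 := rfl
      rw [this]; push_cast; ring
    rw [e1, e2]
    ring
  | C, D, [] => by simp [dv_nil_r]
  | [], [], x :: X => by simp [cadd, dv_nil_l]
  | c :: C, [], x :: X => by simp [cadd, dv_nil_l]
  | [], d :: D, x :: X => by
    have ih := dv_cadd m [] D X
    simp only [cadd, dv, ih, dv_nil_l]
    have e1 : ((Nat.mul m d.1 : ℕ) : ℝ) = m * d.1 := by
      have : Nat.mul m d.1 = m * d.1 := rfl
      rw [this]; push_cast; ring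
    have e2 : ((Nat.mul m d.2 : ℕ) : ℝ) = m * d.2 := by
      have : Nat.mul m d.2 = m * d.2 := rfl
      rw [this]; push_cast; ring
    rw [e1, e2]
    ring

theorem nth_nil {α : Type} (d : α) (i : ℕ) : nth d [] i = d := by cases i <;> rfl

/-- one term -/
theorem term_le {c b : ℕ × ℕ} {x : ℝ} (h1 : (b.1 : ℝ) ≤ x) (h2 : x ≤ b.2) :
    ((Nat.mul (Nat.sub c.1 c.2) b.1 : ℕ) : ℝ) - (Nat.mul (Nat.sub c.2 c.1) b.2 : ℕ) ≤
      ((c.1 : ℝ) - c.2) * x := by
  have e1 : Nat.mul (Nat.sub c.1 c.2) b.1 = (c.1 - c.2) * b.1 := rfl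
  have e2 : Nat.mul (Nat.sub c.2 c.1) b.2 = (c.2 - c.1) * b.2 := rfl
  rw [e1, e2]
  rcases le_total c.1 c.2 with h | h
  · rw [Nat.sub_eq_zero_of_le h]
    have h' : (c.1 : ℝ) ≤ c.2 := by exact_mod_cast h
    push_cast [Nat.cast_sub h]
    have := mul_le_mul_of_nonneg_left h2 (show (0 : ℝ) ≤ c.2 - c.1 by linarith)
    linarith
  · rw [Nat.sub_eq_zero_of_le h]
    have h' : (c.2 : ℝ) ≤ c.1 := by exact_mod_cast h
    push_cast [Nat.cast_sub h]
    have := mul_le_mul_of_nonneg_left h1 (show (0 : ℝ) ≤ c.1 - c.2 by linarith)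
    linarith

theorem lft_nil_l (B : List (ℕ × ℕ)) : lft [] B = 0 := by cases B <;> rfl
theorem lft_nil_r (C : List (ℕ × ℕ)) : lft C [] = 0 := by cases C <;> rfl
theorem rgt_nil_l (B : List (ℕ × ℕ)) : rgt [] B = 0 := by cases B <;> rfl
theorem rgt_nil_r (C : List (ℕ × ℕ)) : rgt C [] = 0 := by cases C <;> rfl

theorem lft_cons (c b : ℕ × ℕ) (C B : List (ℕ × ℕ)) :
    ((lft (c :: C) (b :: B) : ℕ) : ℝ) = (Nat.mul (Nat.sub c.1 c.2) b.1 : ℕ) + lft C B := by
  have : lft (c :: C) (b :: B) = Nat.mul (Nat.sub c.1 c.2) b.1 + lft C B := rfl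
  rw [this]
  push_cast
  ring

theorem rgt_cons (c b : ℕ × ℕ) (C B : List (ℕ × ℕ)) :
    ((rgt (c :: C) (b :: B) : ℕ) : ℝ) = (Nat.mul (Nat.sub c.2 c.1) b.2 : ℕ) + rgt C B := by
  have : rgt (c :: C) (b :: B) = Nat.mul (Nat.sub c.2 c.1) b.2 + rgt C B := rfl
  rw [this]
  push_cast
  ring

theorem lr_le : ∀ (C B : List (ℕ × ℕ)) (X : List ℝ), inB B X →
    ((lft C B : ℕ) : ℝ) - (rgt C B : ℕ) ≤ dv C X
  | c :: C, b :: B, x :: X, h => by
    have ih := lr_le C B X h.2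
    have t := term_le (c := c) h.1.1 h.1.2
    rw [lft_cons, rgt_cons]
    simp only [dv]
    linarith
  | [], B, X, _ => by rw [lft_nil_l, rgt_nil_l, dv_nil_l]; simp
  | C, [], [], _ => by rw [lft_nil_r, rgt_nil_r, dv_nil_r]; simp

/-- the constraint without the variable `i` -/
theorem lr_rest : ∀ (C B : List (ℕ × ℕ)) (X : List ℝ) (i : ℕ), inB B X →
    ((lft C B : ℕ) : ℝ) - (rgt C B : ℕ) -
      (((Nat.mul (Nat.sub (nth (0, 0) C i).1 (nth (0, 0) C i).2) (nth (0, 0) B i).1 : ℕ) : ℝ) -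
      ((Nat.mul (Nat.sub (nth (0, 0) C i).2 (nth (0, 0) C i).1) (nth (0, 0) B i).2 : ℕ) : ℝ)) ≤
    dv C X - (((nth (0, 0) C i).1 : ℝ) - (nth (0, 0) C i).2) * nth 0 X i
  | c :: C, b :: B, x :: X, 0, h => by
    have ih := lr_le C B X h.2
    rw [lft_cons, rgt_cons]
    simp only [dv, nth]
    linarith
  | c :: C, b :: B, x :: X, i + 1, h => by
    have ih := lr_rest C B X i h.2
    have t := term_le (c := c) h.1.1 h.1.2
    rw [lft_cons, rgt_cons]
    simp only [dv, nth] at ih ⊢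
    linarith
  | [], B, X, i, _ => by
    rw [lft_nil_l, rgt_nil_l, dv_nil_l, nth_nil]
    have e1 : Nat.mul (Nat.sub 0 0) (nth (0, 0) B i).1 = 0 := by
      show (0 - 0) * _ = 0
      simp
    have e2 : Nat.mul (Nat.sub 0 0) (nth (0, 0) B i).2 = 0 := by
      show (0 - 0) * _ = 0
      simp
    simp only [e1, e2]
    simp
  | C, [], [], i, _ => by
    rw [lft_nil_r, rgt_nil_r, dv_nil_r, nth_nil, nth_nil]
    have e1 : ∀ a : ℕ, Nat.mul a 0 = 0 := fun a => rfl
    simp only [e1]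
    simp

theorem inB_nth : ∀ (B : List (ℕ × ℕ)) (X : List ℝ) (i : ℕ), inB B X →
    ((nth (0, 0) B i).1 : ℝ) ≤ nth 0 X i ∧ nth 0 X i ≤ (nth (0, 0) B i).2
  | b :: B, x :: X, 0, h => h.1
  | b :: B, x :: X, i + 1, h => inB_nth B X i h.2
  | [], [], i, _ => by rw [nth_nil, nth_nil]; simp

theorem inB_setHi (v : ℕ) : ∀ (B : List (ℕ × ℕ)) (X : List ℝ) (i : ℕ), inB B X →
    nth 0 X i ≤ v → inB (setHi v B i) X
  | b :: B, x :: X, 0, h, h1 => ⟨⟨h.1.1, h1⟩, h.2⟩
  | b :: B, x :: X, i + 1, h, h1 => ⟨h.1, inB_setHi v B X i h.2 h1⟩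
  | [], [], i, _, _ => by cases i <;> trivial

theorem inB_setLo (v : ℕ) : ∀ (B : List (ℕ × ℕ)) (X : List ℝ) (i : ℕ), inB B X →
    (v : ℝ) ≤ nth 0 X i → inB (setLo v B i) X
  | b :: B, x :: X, 0, h, h1 => ⟨⟨h1, h.1.2⟩, h.2⟩
  | b :: B, x :: X, i + 1, h, h1 => ⟨h.1, inB_setLo v B X i h.2 h1⟩
  | [], [], i, _, _ => by cases i <;> trivial

/-- a constraint holds -/
def LcOK (X : List ℝ) (C : Lc) : Prop := (C.2.1 : ℝ) + dv C.1 X ≤ C.2.2

theorem LcOK_zero (X : List ℝ) : LcOK X ([], 0, 0) := by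
  unfold LcOK
  rw [dv_nil_l]
  simp

theorem LcOK_add {X : List ℝ} {C D : Lc} (m : ℕ) (hC : LcOK X C) (hD : LcOK X D) :
    LcOK X (lcadd m C D) := by
  unfold LcOK at *
  unfold lcadd
  simp only
  rw [dv_cadd]
  have e1 : ((Nat.add C.2.1 (Nat.mul m D.2.1) : ℕ) : ℝ) = C.2.1 + m * D.2.1 := by
    have : Nat.add C.2.1 (Nat.mul m D.2.1) = C.2.1 + m * D.2.1 := rfl
    rw [this]; push_cast; ring
  have e2 : ((Nat.add C.2.2 (Nat.mul m D.2.2) : ℕ) : ℝ) = C.2.2 + m * D.2.2 := by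
    have : Nat.add C.2.2 (Nat.mul m D.2.2) = C.2.2 + m * D.2.2 := rfl
    rw [this]; push_cast; ring
  rw [e1, e2]
  have := mul_le_mul_of_nonneg_left hD (Nat.cast_nonneg (α := ℝ) m)
  linarith

theorem LcOK_nth {X : List ℝ} : ∀ (L : List Lc) (i : ℕ), (∀ c ∈ L, LcOK X c) →
    LcOK X (nth ([], 0, 0) L i)
  | [], i, _ => by rw [nth_nil]; exact LcOK_zero X
  | c :: L, 0, h => h c (by simp)
  | c :: L, i + 1, h => LcOK_nth L i fun d hd => h d (by simp [hd])

theorem comb_ok {X : List ℝ} {L : List Lc} (h : ∀ c ∈ L, LcOK X c) :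
    ∀ (f w : ℕ), LcOK X (comb L f w)
  | 0, w => LcOK_zero X
  | f + 1, w => by
    unfold comb
    split
    · exact LcOK_zero X
    · exact LcOK_add _ (comb_ok h f _) (LcOK_nth L _ h)

/-- the monotone relation between two adjacent corners of a pentagon and the opposite one -/
structure RelOK (al t1 t2 t4 : ℝ) : Prop where
  up : ∀ p q r : ℝ, t1 ≤ p * al → t2 ≤ q * al → p ≤ 3 → q ≤ 3 → 0 ≤ r → 0 ≤ HH53 p q r al →
    t4 ≤ r * al
  lo : ∀ p q r : ℝ, p * al ≤ t1 → q * al ≤ t2 → 1 ≤ p → 1 ≤ q → r ≤ 3 → HH53 p q r al ≤ 0 →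
    r * al ≤ t4

/-- the corner `(variable, units)`: angle -/
def ang53 (al : ℝ) (X : List ℝ) (c : ℕ × ℕ) : ℝ := ((c.2 : ℝ) - nth 0 X c.1 / 1024) * al

/-- a pentagon -/
def BlkOK (al : ℝ) (X : List ℝ) (b : List (ℕ × ℕ)) : Prop :=
  ∀ t : ℕ, RelOK al (ang53 al X (nth (0, 0) b (cor3 t))) (ang53 al X (nth (0, 0) b (cor3 (Nat.add t 1))))
    (ang53 al X (nth (0, 0) b (cor3 (Nat.add t 3))))

theorem BlkOK_mk {al : ℝ} {X : List ℝ} {a1 a2 a3 a4 a5 : ℕ × ℕ}
    (r1 : RelOK al (ang53 al X a1) (ang53 al X a2) (ang53 al X a4))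
    (r2 : RelOK al (ang53 al X a2) (ang53 al X a3) (ang53 al X a5))
    (r3 : RelOK al (ang53 al X a3) (ang53 al X a4) (ang53 al X a1))
    (r4 : RelOK al (ang53 al X a4) (ang53 al X a5) (ang53 al X a2))
    (r5 : RelOK al (ang53 al X a5) (ang53 al X a1) (ang53 al X a3)) :
    BlkOK al X [a1, a2, a3, a4, a5] := by
  intro t
  have h0 : cor3 t = t % 5 := rfl
  have h1 : cor3 (Nat.add t 1) = (t + 1) % 5 := rfl
  have h3 : cor3 (Nat.add t 3) = (t + 3) % 5 := rfl
  rw [h0, h1, h3]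
  have : t % 5 = 0 ∨ t % 5 = 1 ∨ t % 5 = 2 ∨ t % 5 = 3 ∨ t % 5 = 4 := by omega
  rcases this with h | h | h | h | h
  · rw [h, show (t + 1) % 5 = 1 by omega, show (t + 3) % 5 = 3 by omega]
    exact r1
  · rw [h, show (t + 1) % 5 = 2 by omega, show (t + 3) % 5 = 4 by omega]
    exact r2
  · rw [h, show (t + 1) % 5 = 3 by omega, show (t + 3) % 5 = 0 by omega]
    exact r3
  · rw [h, show (t + 1) % 5 = 4 by omega, show (t + 3) % 5 = 1 by omega]
    exact r4
  · rw [h, show (t + 1) % 5 = 0 by omega, show (t + 3) % 5 = 2 by omega]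
    exact r5

theorem ang_le {al x : ℝ} (hal : 0 < al) {u lo : ℕ} (hx : (lo : ℝ) ≤ x) :
    ((u : ℝ) - x / 1024) * al ≤ ((Nat.sub (Nat.mul 1024 u) lo : ℕ) : ℝ) / 1024 * al := by
  apply mul_le_mul_of_nonneg_right _ hal.le
  have e : Nat.sub (Nat.mul 1024 u) lo = 1024 * u - lo := rfl
  rw [e, le_div_iff₀ (by norm_num)]
  rcases le_total lo (1024 * u) with h | h
  · push_cast [Nat.cast_sub h]
    linarith
  · rw [Nat.sub_eq_zero_of_le h]
    have : (1024 : ℝ) * u ≤ lo := by exact_mod_cast h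
    push_cast
    linarith

theorem le_ang {al x : ℝ} (hal : 0 < al) {u hi : ℕ} (hx : x ≤ hi)
    (h : 1024 ≤ Nat.sub (Nat.mul 1024 u) hi) :
    ((Nat.sub (Nat.mul 1024 u) hi : ℕ) : ℝ) / 1024 * al ≤ ((u : ℝ) - x / 1024) * al := by
  apply mul_le_mul_of_nonneg_right _ hal.le
  have e : Nat.sub (Nat.mul 1024 u) hi = 1024 * u - hi := rfl
  rw [e] at h ⊢
  have h' : hi ≤ 1024 * u := by omega
  rw [div_le_iff₀ (by norm_num)]
  push_cast [Nat.cast_sub h']
  linarith

theorem d1024_le {n : ℕ} (h : n ≤ 3072) : (n : ℝ) / 1024 ≤ 3 := by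
  rw [div_le_iff₀ (by norm_num)]
  have : (n : ℝ) ≤ (3072 : ℕ) := Nat.cast_le.2 h
  push_cast at this
  linarith

theorem le_d1024 {n : ℕ} (h : 1024 ≤ n) : 1 ≤ (n : ℝ) / 1024 := by
  rw [le_div_iff₀ (by norm_num)]
  have : ((1024 : ℕ) : ℝ) ≤ n := Nat.cast_le.2 h
  push_cast at this
  linarith

theorem relLo_ok {P : Par} (hp : ParOK P) {al : ℝ} (hal : 0 < al)
    (h1 : (P.A : ℝ) / 1073741824 ≤ al) (h2 : al ≤ (P.B : ℝ) / 1073741824) {b B : List (ℕ × ℕ)} {X : List ℝ}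
    (hB : inB B X) (hb : BlkOK al X b) {t v : ℕ} (h : relLo P b B t v = true) :
    (v : ℝ) ≤ nth 0 X (opp b t) := by
  unfold relLo at h
  simp only [Bool.and_eq_true, Nat.ble_eq] at h
  obtain ⟨hv, hc⟩ := h
  have k := chkP_ok hp hc h1 h2
  unfold chkP at hc
  simp only [Bool.and_eq_true] at hc
  obtain ⟨⟨p1, p3⟩, ⟨q1, q3⟩, r3⟩ := rg_ok hc.1
  have hr := (hb t).up _ _ _ (ang_le hal (inB_nth B X _ hB).1) (ang_le hal (inB_nth B X _ hB).1)
    (d1024_le p3) (d1024_le q3)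
    (by positivity) k
  unfold ang53 at hr
  have h5 := le_of_mul_le_mul_right hr hal
  have e : Nat.sub (Nat.mul 1024 (nth (0, 0) b (cor3 (Nat.add t 3))).2) v =
    1024 * (nth (0, 0) b (cor3 (Nat.add t 3))).2 - v := rfl
  have hv' : v ≤ 1024 * (nth (0, 0) b (cor3 (Nat.add t 3))).2 := hv
  rw [e, Nat.cast_sub hv'] at h5
  unfold opp
  push_cast at h5
  linarith

theorem relHi_ok {P : Par} (hp : ParOK P) {al : ℝ} (hal : 0 < al)
    (h1 : (P.A : ℝ) / 1073741824 ≤ al) (h2 : al ≤ (P.B : ℝ) / 1073741824) {b B : List (ℕ × ℕ)} {X : List ℝ}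
    (hB : inB B X) (hb : BlkOK al X b) {t v : ℕ} (h : relHi P b B t v = true) :
    nth 0 X (opp b t) ≤ (v : ℝ) := by
  unfold relHi at h
  simp only [Bool.and_eq_true, Nat.ble_eq] at h
  obtain ⟨hv, hc⟩ := h
  have k := chkN_ok hp hc h1 h2
  unfold chkN at hc
  simp only [Bool.and_eq_true] at hc
  obtain ⟨⟨p1, p3⟩, ⟨q1, q3⟩, r3⟩ := rg_ok hc.1
  have hr := (hb t).lo _ _ _ (le_ang hal (inB_nth B X _ hB).2 p1) (le_ang hal (inB_nth B X _ hB).2 q1)
    (le_d1024 p1) (le_d1024 q1) (d1024_le r3) k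
  unfold ang53 at hr
  have h5 := le_of_mul_le_mul_right hr hal
  have e : Nat.sub (Nat.mul 1024 (nth (0, 0) b (cor3 (Nat.add t 3))).2) v =
    1024 * (nth (0, 0) b (cor3 (Nat.add t 3))).2 - v := rfl
  have hv' : v ≤ 1024 * (nth (0, 0) b (cor3 (Nat.add t 3))).2 := hv
  rw [e, Nat.cast_sub hv'] at h5
  unfold opp
  push_cast at h5
  linarith

theorem rel_nil (P : Par) (B : List (ℕ × ℕ)) (t v : ℕ) :
    relLo P [] B t v = false ∧ relHi P [] B t v = false := by
  have e : ∀ n, Nat.sub (Nat.mul 1024 0) n = 0 := fun n => Nat.zero_sub n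
  constructor
  · unfold relLo
    simp only [nth_nil, e]
    unfold chkP rg
    simp
  · unfold relHi
    simp only [nth_nil, e]
    unfold chkN rg
    simp

/-- the real numbers satisfy the system -/
structure SysOK (S : Sys) (al : ℝ) (X : List ℝ) : Prop where
  lin : ∀ c ∈ S.lin, LcOK X c
  blk : ∀ b ∈ S.blk, BlkOK al X b

theorem nth_mem {α : Type} (d : α) : ∀ (L : List α) (i : ℕ), nth d L i = d ∨ nth d L i ∈ L
  | [], i => by rw [nth_nil]; exact Or.inl rfl
  | a :: L, 0 => Or.inr (by simp [nth])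
  | a :: L, i + 1 => by
    rcases nth_mem d L i with h | h
    · exact Or.inl h
    · exact Or.inr (by simp only [nth]; exact List.mem_cons_of_mem _ h)

theorem far_ok {X : List ℝ} {C : Lc} {B : List (ℕ × ℕ)} (hC : LcOK X C) (hB : inB B X)
    (h : far C B = true) : False := by
  have h4 := Nat.le_of_ble_eq_true h
  have h6 := lr_le C.1 B X hB
  unfold LcOK at hC
  have h4' : C.2.2 + rgt C.1 B + 1 ≤ C.2.1 + lft C.1 B := h4
  have h7 : (C.2.2 : ℝ) + (rgt C.1 B : ℕ) + 1 ≤ (C.2.1 : ℝ) + (lft C.1 B : ℕ) := by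
    exact_mod_cast h4'
  linarith

theorem tlHi_ok {X : List ℝ} {C : Lc} {B : List (ℕ × ℕ)} {i v : ℕ} (h5 : LcOK X C)
    (hB : inB B X) (h : tlHi C B i v = true) : nth 0 X i ≤ v := by
  unfold tlHi at h
  simp only [Bool.and_eq_true, Nat.ble_eq] at h
  obtain ⟨ha, h4⟩ := h
  have h6 := lr_rest C.1 B X i hB
  unfold LcOK at h5
  generalize nth (0, 0) C.1 i = c at ha h4 h6
  generalize nth (0, 0) B i = b at h4 h6
  have ha' : c.2 < c.1 := by
    have : 1 ≤ c.1 - c.2 := ha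
    omega
  have h4' : C.2.2 + rgt C.1 B + (c.1 - c.2) * b.1 ≤ C.2.1 + lft C.1 B + (c.1 - c.2) * v := h4
  have e1 : Nat.mul (Nat.sub c.1 c.2) b.1 = (c.1 - c.2) * b.1 := rfl
  have e2 : Nat.mul (Nat.sub c.2 c.1) b.2 = (c.2 - c.1) * b.2 := rfl
  rw [e1, e2, Nat.sub_eq_zero_of_le ha'.le] at h6
  have h7 : (C.2.2 : ℝ) + (rgt C.1 B : ℕ) + ((c.1 : ℝ) - c.2) * b.1 ≤
      C.2.1 + (lft C.1 B : ℕ) + ((c.1 : ℝ) - c.2) * v := by
    have := (Nat.cast_le (α := ℝ)).2 h4'
    push_cast [Nat.cast_sub ha'.le] at this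
    exact this
  push_cast [Nat.cast_sub ha'.le] at h6
  have hpos : (0 : ℝ) < (c.1 : ℝ) - c.2 := by
    have : (c.2 : ℝ) < c.1 := by exact_mod_cast ha'
    linarith
  have h8 : ((c.1 : ℝ) - c.2) * nth 0 X i ≤ ((c.1 : ℝ) - c.2) * v := by linarith
  exact le_of_mul_le_mul_left h8 hpos

theorem tlLo_ok {X : List ℝ} {C : Lc} {B : List (ℕ × ℕ)} {i v : ℕ} (h5 : LcOK X C)
    (hB : inB B X) (h : tlLo C B i v = true) : (v : ℝ) ≤ nth 0 X i := by
  unfold tlLo at h
  simp only [Bool.and_eq_true, Nat.ble_eq] at h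
  obtain ⟨ha, h4⟩ := h
  have h6 := lr_rest C.1 B X i hB
  unfold LcOK at h5
  generalize nth (0, 0) C.1 i = c at ha h4 h6
  generalize nth (0, 0) B i = b at h4 h6
  have ha' : c.1 < c.2 := by
    have : 1 ≤ c.2 - c.1 := ha
    omega
  have h4' : C.2.2 + rgt C.1 B + (c.2 - c.1) * v ≤ C.2.1 + lft C.1 B + (c.2 - c.1) * b.2 := h4
  have e1 : Nat.mul (Nat.sub c.1 c.2) b.1 = (c.1 - c.2) * b.1 := rfl
  have e2 : Nat.mul (Nat.sub c.2 c.1) b.2 = (c.2 - c.1) * b.2 := rfl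
  rw [e1, e2, Nat.sub_eq_zero_of_le ha'.le] at h6
  have h7 : (C.2.2 : ℝ) + (rgt C.1 B : ℕ) + ((c.2 : ℝ) - c.1) * v ≤
      C.2.1 + (lft C.1 B : ℕ) + ((c.2 : ℝ) - c.1) * b.2 := by
    have := (Nat.cast_le (α := ℝ)).2 h4'
    push_cast [Nat.cast_sub ha'.le] at this
    exact this
  push_cast [Nat.cast_sub ha'.le] at h6
  have hpos : (0 : ℝ) < (c.2 : ℝ) - c.1 := by
    have : (c.1 : ℝ) < c.2 := by exact_mod_cast ha'
    linarith
  have h8 : ((c.2 : ℝ) - c.1) * v ≤ ((c.2 : ℝ) - c.1) * nth 0 X i := by linarith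
  exact le_of_mul_le_mul_left h8 hpos

theorem run_sound {S : Sys} (hp : ParOK S.par) {al : ℝ} (hal : 0 < al)
    (h1 : (S.par.A : ℝ) / 1073741824 ≤ al)
    (h2 : al ≤ (S.par.B : ℝ) / 1073741824) {X : List ℝ} (hS : SysOK S al X) :
    ∀ (f : ℕ) (B : List (ℕ × ℕ)) (T T' : List ℕ), run S f B T = some T' → inB B X → False := by
  intro f
  induction f with
  | zero => intro B T T' h; simp [run] at h
  | succ f ih =>
    intro B T T' h hB
    cases T with
    | nil => simp [run] at h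
    | cons w T =>
      unfold run at h
      split at h
      · -- empty interval
        split at h
        · rename_i h3
          have h4 := Nat.le_of_ble_eq_true h3
          have h5 := inB_nth B X (d1 w) hB
          have h6 : ((nth (0, 0) B (d1 w)).2 : ℝ) + 1 ≤ (nth (0, 0) B (d1 w)).1 := by
            exact_mod_cast h4
          linarith [h5.1, h5.2]
        · exact absurd h (by simp)
      · -- a contradiction
        split at h
        · rename_i h3
          exact far_ok (comb_ok hS.lin 40 _) hB h3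
        · exact absurd h (by simp)
      · -- upper bound
        split at h
        · rename_i h3
          exact ih _ _ _ h (inB_setHi _ _ _ _ hB (tlHi_ok (comb_ok hS.lin 40 _) hB h3))
        · exact absurd h (by simp)
      · -- lower bound
        split at h
        · rename_i h3
          exact ih _ _ _ h (inB_setLo _ _ _ _ hB (tlLo_ok (comb_ok hS.lin 40 _) hB h3))
        · exact absurd h (by simp)
      · -- relation, lower
        split at h
        · rename_i h3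
          refine ih _ _ _ h (inB_setLo _ _ _ _ hB ?_)
          rcases nth_mem [] S.blk (d1 w) with hm | hm
          · rw [hm, (rel_nil _ _ _ _).1] at h3
            exact absurd h3 (by simp)
          · exact relLo_ok hp hal h1 h2 hB (hS.blk _ hm) h3
        · exact absurd h (by simp)
      · -- relation, upper
        split at h
        · rename_i h3
          refine ih _ _ _ h (inB_setHi _ _ _ _ hB ?_)
          rcases nth_mem [] S.blk (d1 w) with hm | hm
          · rw [hm, (rel_nil _ _ _ _).2] at h3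
            exact absurd h3 (by simp)
          · exact relHi_ok hp hal h1 h2 hB (hS.blk _ hm) h3
        · exact absurd h (by simp)
      · -- split
        split at h
        · exact absurd h (by simp)
        · rename_i T1 hT1
          rcases le_total (nth 0 X (d1 w)) ((d2 w : ℕ) : ℝ) with h5 | h5
          · exact ih _ _ _ hT1 (inB_setHi _ _ _ _ hB h5)
          · exact ih _ _ _ h (inB_setLo _ _ _ _ hB h5)

/-- **soundness of the engine**, any range of `α` -/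
theorem accept_soundP {S : Sys} (hp : ParOK S.par) {al : ℝ} (hal : 0 < al)
    (h1 : (S.par.A : ℝ) / 1073741824 ≤ al) (h2 : al ≤ (S.par.B : ℝ) / 1073741824)
    {X : List ℝ} (hS : SysOK S al X) {f : ℕ} {B : List (ℕ × ℕ)} {T : List ℕ}
    (h : accept S f B T = true) (hB : inB B X) : False := by
  unfold accept at h
  split at h
  · rename_i T' hT
    exact run_sound hp hal h1 h2 hS f B T T' hT hB
  · exact absurd h (by simp)

/-- **soundness of the engine**, full range -/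
theorem accept_sound {lin : List Lc} {blk : List (List (ℕ × ℕ))} {al : ℝ}
    (h1 : 10439 / 10000 ≤ al) (h2 : al ≤ 10472 / 10000)
    {X : List ℝ} (hS : SysOK (S2 lin blk) al X) {f : ℕ} {B : List (ℕ × ℕ)} {T : List ℕ}
    (h : accept (S2 lin blk) f B T = true) (hB : inB B X) : False := by
  refine accept_soundP (S := S2 lin blk) par0_ok (by linarith) ?_ ?_ hS h hB
  · show ((1120879090 : ℕ) : ℝ) / 1073741824 ≤ al
    push_cast
    linarith
  · show al ≤ ((1124422439 : ℕ) : ℝ) / 1073741824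
    push_cast
    linarith

end

end Pool.Agent.PEN.E5.EN
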