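import Pool.Agent.Helper53.EN.Num

/-! # The numeric test of the interval engine -/

set_option autoImplicit false

namespace Pool.Agent.PEN.E5.EN

/-- `ca` = scaled `cos α`; `X, Y, Z` = scaled `1 + cos`, `sx, sy` = scaled sines -/
def pos (ca X Y sx sy : ℕ) : ℕ :=
  Nat.add (Nat.mul (Nat.mul (nat_lit 2199023255552) ca) (Nat.add X Y))
    (Nat.mul (Ksb ca) (Nat.add (nat_lit 1208925819614629174706176) (Nat.mul sx sy)))
def neg (ca X Y Z : ℕ) : ℕ :=
  Nat.add (Nat.mul ca (Nat.add (Nat.add (nat_lit 3626777458843887524118528)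
    (Nat.mul ca (nat_lit 1099511627776))) (Nat.mul X Y)))
    (Nat.mul (Nat.mul (Ksb ca) (nat_lit 1099511627776)) Z)

/-- `14 / 10 ^ 5` in the scale `2 ^ 120` is `186091919409888222206532988439249` -/
def hP (A ca p q r : ℕ) : Bool :=
  Nat.ble (Nat.add (neg ca (cosN (Nat.mul p A)) (cosN (Nat.mul q A)) (cosN (Nat.mul r A)))
    (nat_lit 186091919409888222206532988439249))
    (pos ca (cosN (Nat.mul p A)) (cosN (Nat.mul q A)) (sinN (Nat.mul p A)) (sinN (Nat.mul q A)))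

def hN (A ca p q r : ℕ) : Bool :=
  Nat.ble (Nat.add
    (pos ca (cosN (Nat.mul p A)) (cosN (Nat.mul q A)) (sinN (Nat.mul p A)) (sinN (Nat.mul q A)))
    (nat_lit 186091919409888222206532988439249))
    (neg ca (cosN (Nat.mul p A)) (cosN (Nat.mul q A)) (cosN (Nat.mul r A)))

/-- the angles are in range -/
def rg (p q r : ℕ) : Bool :=
  (Nat.ble 1024 p && Nat.ble p 3072) && ((Nat.ble 1024 q && Nat.ble q 3072) && Nat.ble r 3072)

/-- the range `[A, B]` of `α` (scale `2 ^ 30`) with the scaled cosines of its ends -/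
structure Par where
  A : ℕ
  ca : ℕ
  B : ℕ
  cb : ℕ

/-- the full range for `d ≤ 3 / 20` -/
def par0 : Par := ⟨1120879090, 552892764021, 1124422439, 549753481306⟩

/-- the test is positive -/
def chkP (P : Par) (p q r : ℕ) : Bool :=
  rg p q r && (hP P.A P.ca p q r && hP P.B P.cb p q r)

/-- the test is negative -/
def chkN (P : Par) (p q r : ℕ) : Bool :=
  rg p q r && (hN P.A P.ca p q r && hN P.B P.cb p q r)

/-- the range is correct -/
def parChk (P : Par) : Bool :=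
  (Nat.ble (Nat.succ P.A) P.B && (Nat.ble P.B 1124422439 && Nat.ble P.B (Nat.add P.A 3543349))) &&
  ((Nat.beq (cosN (Nat.mul 1024 P.A)) (Nat.add P.ca 1099511627776) &&
    (Nat.ble 540959720866 P.ca && Nat.ble P.ca 558551906910)) &&
   (Nat.beq (cosN (Nat.mul 1024 P.B)) (Nat.add P.cb 1099511627776) &&
    (Nat.ble 540959720866 P.cb && Nat.ble P.cb 558551906910)))

noncomputable section

/-- the real test function -/
def Hf (ca cx sx cy sy cz : ℝ) : ℝ :=
  ca * (cx + cy) - ca * ca - (1 - ca) * cz - ca * (cx * cy) + (1 - ca) * (sx * sy)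

theorem mulb {x B E b : ℝ} (hx : |x| ≤ E) (hB : |B| ≤ b) : |x * B| ≤ E * b := by
  rw [abs_mul]
  exact mul_le_mul hx hB (abs_nonneg _) ((abs_nonneg _).trans hx)

theorem Hf_err {ca cx sx cy sy cz a x s y t z : ℝ}
    (ha : |a - ca| ≤ 15 / 10 ^ 7) (hx : |x - cx| ≤ 15 / 10 ^ 7) (hs : |s - sx| ≤ 13 / 10 ^ 6)
    (hy : |y - cy| ≤ 15 / 10 ^ 7) (ht : |t - sy| ≤ 13 / 10 ^ 6) (hz : |z - cz| ≤ 15 / 10 ^ 7)
    (ca0 : 49 / 100 ≤ ca) (ca1 : ca ≤ 51 / 100) (cx1 : |cx| ≤ 1) (sx1 : |sx| ≤ 1) (cy1 : |cy| ≤ 1)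
    (sy1 : |sy| ≤ 1) (cz1 : |cz| ≤ 1) :
    |Hf a x s y t z - Hf ca cx sx cy sy cz| ≤ 28 / 10 ^ 6 := by
  have e : Hf a x s y t z - Hf ca cx sx cy sy cz =
      (a - ca) * ((cx + cy) - (a + ca) + cz - cx * cy - sx * sy) +
      (x - cx) * (a * (1 - cy)) + (y - cy) * (a * (1 - x)) + (z - cz) * (-(1 - a)) +
      (s - sx) * ((1 - a) * sy) + (t - sy) * ((1 - a) * s) := by
    unfold Hf
    ring
  have A := abs_le.1 ha
  have X := abs_le.1 hx
  have S := abs_le.1 hs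
  have CX := abs_le.1 cx1
  have SX := abs_le.1 sx1
  have CY := abs_le.1 cy1
  have SY := abs_le.1 sy1
  have CZ := abs_le.1 cz1
  have p1 : |cx * cy| ≤ 1 := by
    have := mulb cx1 cy1
    linarith
  have p2 : |sx * sy| ≤ 1 := by
    have := mulb sx1 sy1
    linarith
  have P1 := abs_le.1 p1
  have P2 := abs_le.1 p2
  have a1 : |a| ≤ 52 / 100 := abs_le.2 ⟨by linarith, by linarith⟩
  have a2 : |1 - a| ≤ 52 / 100 := abs_le.2 ⟨by linarith, by linarith⟩
  have B1 : |(cx + cy) - (a + ca) + cz - cx * cy - sx * sy| ≤ 605 / 100 :=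
    abs_le.2 ⟨by linarith, by linarith⟩
  have B2 : |a * (1 - cy)| ≤ 52 / 100 * 2 := mulb a1 (abs_le.2 ⟨by linarith, by linarith⟩)
  have B3 : |a * (1 - x)| ≤ 52 / 100 * (201 / 100) := mulb a1 (abs_le.2 ⟨by linarith, by linarith⟩)
  have B4 : |(-(1 - a))| ≤ 52 / 100 := by rw [abs_neg]; exact a2
  have B5 : |(1 - a) * sy| ≤ 52 / 100 * 1 := mulb a2 sy1
  have B6 : |(1 - a) * s| ≤ 52 / 100 * (101 / 100) := mulb a2 (abs_le.2 ⟨by linarith, by linarith⟩)
  have C1 := abs_le.1 (mulb ha B1)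
  have C2 := abs_le.1 (mulb hx B2)
  have C3 := abs_le.1 (mulb hy B3)
  have C4 := abs_le.1 (mulb hz B4)
  have C5 := abs_le.1 (mulb hs B5)
  have C6 := abs_le.1 (mulb ht B6)
  rw [e, abs_le]
  constructor
  · linarith [C1.1, C2.1, C3.1, C4.1, C5.1, C6.1]
  · linarith [C1.2, C2.2, C3.2, C4.2, C5.2, C6.2]

/-- the test function as a sum of cosines -/
theorem Hf_sum (al p q r : ℝ) :
    Hf (Real.cos al) (Real.cos (p * al)) (Real.sin (p * al)) (Real.cos (q * al))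
      (Real.sin (q * al)) (Real.cos (r * al)) =
    (Real.cos ((p + 1) * al) + Real.cos ((p - 1) * al) + Real.cos ((q + 1) * al) +
      Real.cos ((q - 1) * al) - 1 - Real.cos (2 * al) - Real.cos ((p - q + 1) * al) -
      Real.cos ((p - q - 1) * al) + Real.cos ((p - q) * al) - Real.cos ((p + q) * al) -
      2 * Real.cos (r * al) + Real.cos ((r + 1) * al) + Real.cos ((r - 1) * al)) / 2 := by
  have e1 : (p + 1) * al = p * al + al := by ring
  have e2 : (p - 1) * al = p * al - al := by ring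
  have e3 : (q + 1) * al = q * al + al := by ring
  have e4 : (q - 1) * al = q * al - al := by ring
  have e5 : (p - q + 1) * al = (p * al - q * al) + al := by ring
  have e6 : (p - q - 1) * al = (p * al - q * al) - al := by ring
  have e7 : (p - q) * al = p * al - q * al := by ring
  have e8 : (p + q) * al = p * al + q * al := by ring
  have e9 : (r + 1) * al = r * al + al := by ring
  have e10 : (r - 1) * al = r * al - al := by ring
  rw [e1, e2, e3, e4, e5, e6, e7, e8, e9, e10, Real.cos_add (p * al) al, Real.cos_sub (p * al) al,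
    Real.cos_add (q * al) al, Real.cos_sub (q * al) al, Real.cos_add (p * al - q * al) al,
    Real.cos_sub (p * al - q * al) al, Real.cos_add (r * al) al, Real.cos_sub (r * al) al,
    Real.cos_two_mul, Real.cos_sub (p * al) (q * al), Real.cos_add (p * al) (q * al)]
  unfold Hf
  ring

/-! ### Interpolation -/

theorem cos_tay {x t : ℝ} (ht : 0 ≤ t) :
    Real.cos (x + t) ≤ Real.cos x - t * Real.sin x + t ^ 2 / 2 := by
  have hder : ∀ t : ℝ, HasDerivAt
      (fun t : ℝ => (Real.cos x - t * Real.sin x + t ^ 2 / 2) - Real.cos (x + t))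
      (t - Real.sin x + Real.sin (x + t)) t := by
    intro t
    have h1 : HasDerivAt (fun t : ℝ => Real.cos (x + t)) (-Real.sin (x + t)) t := by
      have := (Real.hasDerivAt_cos (x + t)).comp t ((hasDerivAt_id t).const_add x)
      exact this.congr_deriv (by simp)
    refine ((((hasDerivAt_const t (Real.cos x)).sub ((hasDerivAt_id t).mul_const (Real.sin x))).add
      ((hasDerivAt_pow 2 t).div_const 2)).sub h1).congr_deriv ?_
    push_cast
    ring
  have hmono : MonotoneOn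
      (fun t : ℝ => (Real.cos x - t * Real.sin x + t ^ 2 / 2) - Real.cos (x + t))
      (Set.Ici (0 : ℝ)) := by
    refine monotoneOn_of_deriv_nonneg (convex_Ici _)
      (fun t _ => (hder t).continuousAt.continuousWithinAt)
      (fun t _ => (hder t).differentiableAt.differentiableWithinAt) fun t ht => ?_
    rw [(hder t).deriv]
    have ht' : (0:ℝ) ≤ t := interior_subset ht
    have h2 : Real.sin (x + t) - Real.sin x = 2 * (Real.sin (t / 2) * Real.cos ((x + t + x) / 2)) := by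
      rw [Real.sin_sub_sin]
      have : (x + t - x) / 2 = t / 2 := by ring
      rw [this]
      ring
    have h3 : |Real.sin (t / 2) * Real.cos ((x + t + x) / 2)| ≤ t / 2 * 1 := by
      apply mulb _ (Real.abs_cos_le_one _)
      rw [abs_le]
      constructor
      · have := Real.abs_sin_le_abs (x := t / 2)
        have h6 := (abs_le.1 this).1
        rwa [abs_of_nonneg (show (0:ℝ) ≤ t / 2 by linarith)] at h6
      · exact Real.sin_le (by linarith)
    have h4 := abs_le.1 h3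
    linarith [h4.1]
  have h := hmono (a := 0) Set.self_mem_Ici ht ht
  simp only [zero_mul, sub_zero, add_zero] at h
  norm_num at h
  linarith

theorem cos_tay' {x t : ℝ} : Real.cos (x + t) ≤ Real.cos x - t * Real.sin x + t ^ 2 / 2 := by
  rcases le_total 0 t with h | h
  · exact cos_tay h
  · have := cos_tay (x := -x) (t := -t) (by linarith)
    rw [show -x + -t = -(x + t) by ring, Real.cos_neg, Real.cos_neg, Real.sin_neg] at this
    linarith

theorem cos_tay_ge {x t : ℝ} : Real.cos x - t * Real.sin x - t ^ 2 / 2 ≤ Real.cos (x + t) := by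
  have := cos_tay' (x := x + Real.pi) (t := t)
  rw [show x + Real.pi + t = x + t + Real.pi by ring, Real.cos_add_pi, Real.cos_add_pi,
    Real.sin_add_pi] at this
  linarith

/-- linear interpolation of a cosine -/
theorem cos_interp {w a b l : ℝ} (h0 : 0 ≤ l) (h1 : l ≤ 1) :
    |Real.cos (w * ((1 - l) * a + l * b)) - ((1 - l) * Real.cos (w * a) + l * Real.cos (w * b))| ≤
      w ^ 2 * (b - a) ^ 2 / 8 := by
  set x := w * ((1 - l) * a + l * b) with hx
  have e1 : x + w * l * (a - b) = w * a := by rw [hx]; ring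
  have e2 : x + w * (1 - l) * (b - a) = w * b := by rw [hx]; ring
  have p1 := cos_tay' (x := x) (t := w * l * (a - b))
  have p2 := cos_tay' (x := x) (t := w * (1 - l) * (b - a))
  have q1 := cos_tay_ge (x := x) (t := w * l * (a - b))
  have q2 := cos_tay_ge (x := x) (t := w * (1 - l) * (b - a))
  rw [e1] at p1 q1
  rw [e2] at p2 q2
  have hl : 0 ≤ 1 - l := by linarith
  have r1 := mul_le_mul_of_nonneg_left p1 hl
  have r2 := mul_le_mul_of_nonneg_left p2 h0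
  have s1 := mul_le_mul_of_nonneg_left q1 hl
  have s2 := mul_le_mul_of_nonneg_left q2 h0
  have hq : (1 - l) * ((w * l * (a - b)) ^ 2 / 2) + l * ((w * (1 - l) * (b - a)) ^ 2 / 2) ≤
      w ^ 2 * (b - a) ^ 2 / 8 := by
    have e : (1 - l) * ((w * l * (a - b)) ^ 2 / 2) + l * ((w * (1 - l) * (b - a)) ^ 2 / 2) =
        (w * (b - a)) ^ 2 * (l * (1 - l)) / 2 := by ring
    rw [e]
    have h4 : l * (1 - l) ≤ 1 / 4 := by nlinarith [sq_nonneg (l - 1 / 2)]
    have h5 := mul_le_mul_of_nonneg_left h4 (sq_nonneg (w * (b - a)))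
    have e6 : (w * (b - a)) ^ 2 = w ^ 2 * (b - a) ^ 2 := by ring
    rw [e6] at h5 ⊢
    linarith
  have f1 : (1 - l) * (Real.cos x - w * l * (a - b) * Real.sin x + (w * l * (a - b)) ^ 2 / 2) +
      l * (Real.cos x - w * (1 - l) * (b - a) * Real.sin x + (w * (1 - l) * (b - a)) ^ 2 / 2) =
      Real.cos x + ((1 - l) * ((w * l * (a - b)) ^ 2 / 2) + l * ((w * (1 - l) * (b - a)) ^ 2 / 2)) := by
    ring
  have f2 : (1 - l) * (Real.cos x - w * l * (a - b) * Real.sin x - (w * l * (a - b)) ^ 2 / 2) +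
      l * (Real.cos x - w * (1 - l) * (b - a) * Real.sin x - (w * (1 - l) * (b - a)) ^ 2 / 2) =
      Real.cos x - ((1 - l) * ((w * l * (a - b)) ^ 2 / 2) + l * ((w * (1 - l) * (b - a)) ^ 2 / 2)) := by
    ring
  rw [abs_le]
  constructor
  · linarith
  · linarith

/-- the interpolation error of one cosine -/
def Dw (a b l w : ℝ) : ℝ :=
  Real.cos (w * ((1 - l) * a + l * b)) - ((1 - l) * Real.cos (w * a) + l * Real.cos (w * b))

theorem Dw_le {a b l w : ℝ} (h0 : 0 ≤ l) (h1 : l ≤ 1) : |Dw a b l w| ≤ w ^ 2 * (b - a) ^ 2 / 8 :=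
  cos_interp h0 h1

theorem Hf_Dw {p q r a b l : ℝ} {F : ℝ → ℝ}
    (hF : ∀ x, F x = Hf (Real.cos x) (Real.cos (p * x)) (Real.sin (p * x)) (Real.cos (q * x))
      (Real.sin (q * x)) (Real.cos (r * x))) :
    F ((1 - l) * a + l * b) - ((1 - l) * F a + l * F b) =
    (Dw a b l (p + 1) + Dw a b l (p - 1) + Dw a b l (q + 1) + Dw a b l (q - 1) - Dw a b l 2 -
      Dw a b l (p - q + 1) - Dw a b l (p - q - 1) + Dw a b l (p - q) - Dw a b l (p + q) -
      2 * Dw a b l r + Dw a b l (r + 1) + Dw a b l (r - 1)) / 2 := by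
  rw [hF, hF, hF, Hf_sum, Hf_sum, Hf_sum]
  unfold Dw
  ring

theorem w_sum {p q r : ℝ} (p1 : 1 ≤ p) (p3 : p ≤ 3) (q1 : 1 ≤ q) (q3 : q ≤ 3) (r0 : 0 ≤ r)
    (r3 : r ≤ 3) :
    (p + 1) ^ 2 + (p - 1) ^ 2 + (q + 1) ^ 2 + (q - 1) ^ 2 + 2 ^ 2 + (p - q + 1) ^ 2 +
      (p - q - 1) ^ 2 + (p - q) ^ 2 + (p + q) ^ 2 + 2 * r ^ 2 + (r + 1) ^ 2 + (r - 1) ^ 2 ≤ 128 := by
  have g1 : p ^ 2 ≤ 3 ^ 2 := sq_le_sq' (by linarith) (by linarith)
  have g2 : q ^ 2 ≤ 3 ^ 2 := sq_le_sq' (by linarith) (by linarith)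
  have g3 : r ^ 2 ≤ 3 ^ 2 := sq_le_sq' (by linarith) (by linarith)
  have g4 : (p - q) ^ 2 ≤ 2 ^ 2 := sq_le_sq' (by linarith) (by linarith)
  have e : (p + 1) ^ 2 + (p - 1) ^ 2 + (q + 1) ^ 2 + (q - 1) ^ 2 + 2 ^ 2 + (p - q + 1) ^ 2 +
    (p - q - 1) ^ 2 + (p - q) ^ 2 + (p + q) ^ 2 + 2 * r ^ 2 + (r + 1) ^ 2 + (r - 1) ^ 2 =
    4 * p ^ 2 + 4 * q ^ 2 + 2 * (p - q) ^ 2 + 4 * r ^ 2 + 12 := by ring
  rw [e]
  linarith

theorem interp_arith {c d1 d2 d3 d4 d5 d6 d7 d8 d9 d10 d11 d12 w1 w2 w3 w4 w5 w6 w7 w8 w9 w10 w11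
    w12 : ℝ} (k1 : |d1| ≤ w1 * c / 8) (k2 : |d2| ≤ w2 * c / 8) (k3 : |d3| ≤ w3 * c / 8)
    (k4 : |d4| ≤ w4 * c / 8) (k5 : |d5| ≤ w5 * c / 8) (k6 : |d6| ≤ w6 * c / 8)
    (k7 : |d7| ≤ w7 * c / 8) (k8 : |d8| ≤ w8 * c / 8) (k9 : |d9| ≤ w9 * c / 8)
    (k10 : |d10| ≤ w10 * c / 8) (k11 : |d11| ≤ w11 * c / 8) (k12 : |d12| ≤ w12 * c / 8)
    (h : (w1 + w2 + w3 + w4 + w5 + w6 + w7 + w8 + w9 + 2 * w10 + w11 + w12) * c ≤ 128 * c) :
    |(d1 + d2 + d3 + d4 - d5 - d6 - d7 + d8 - d9 - 2 * d10 + d11 + d12) / 2| ≤ 64 * c / 8 := by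
  have k1 := abs_le.1 k1
  have k2 := abs_le.1 k2
  have k3 := abs_le.1 k3
  have k4 := abs_le.1 k4
  have k5 := abs_le.1 k5
  have k6 := abs_le.1 k6
  have k7 := abs_le.1 k7
  have k8 := abs_le.1 k8
  have k9 := abs_le.1 k9
  have k10 := abs_le.1 k10
  have k11 := abs_le.1 k11
  have k12 := abs_le.1 k12
  rw [abs_le]
  constructor
  · linarith [k1.1, k2.1, k3.1, k4.1, k5.2, k6.2, k7.2, k8.1, k9.2, k10.2, k11.1, k12.1]
  · linarith [k1.2, k2.2, k3.2, k4.2, k5.1, k6.1, k7.1, k8.2, k9.1, k10.1, k11.2, k12.2]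

/-- the interpolation error of the test function -/
theorem Hf_interp {p q r a b l : ℝ} (h0 : 0 ≤ l) (h1 : l ≤ 1) (p1 : 1 ≤ p) (p3 : p ≤ 3)
    (q1 : 1 ≤ q) (q3 : q ≤ 3) (r0 : 0 ≤ r) (r3 : r ≤ 3) {F : ℝ → ℝ}
    (hF : ∀ x, F x = Hf (Real.cos x) (Real.cos (p * x)) (Real.sin (p * x)) (Real.cos (q * x))
      (Real.sin (q * x)) (Real.cos (r * x))) :
    |F ((1 - l) * a + l * b) - ((1 - l) * F a + l * F b)| ≤ 64 * (b - a) ^ 2 / 8 := by
  rw [Hf_Dw hF]
  exact interp_arith (Dw_le h0 h1) (Dw_le h0 h1) (Dw_le h0 h1) (Dw_le h0 h1) (Dw_le h0 h1)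
    (Dw_le h0 h1) (Dw_le h0 h1) (Dw_le h0 h1) (Dw_le h0 h1) (Dw_le h0 h1) (Dw_le h0 h1)
    (Dw_le h0 h1) (mul_le_mul_of_nonneg_right (w_sum p1 p3 q1 q3 r0 r3) (sq_nonneg (b - a)))

end

end Pool.Agent.PEN.E5.EN
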