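import Mathlib

/-! # Fixed point cosines for the interval engine -/

set_option autoImplicit false

namespace Pool.Agent.PEN.E5.EN

noncomputable section

/-! ### Taylor bounds on `[0, 2]` -/

theorem cos_ge2 (x : ℝ) : 1 - x ^ 2 / 2 ≤ Real.cos x := Real.one_sub_sq_div_two_le_cos

theorem sin_ge3 {x : ℝ} (h0 : 0 ≤ x) : x - x ^ 3 / 6 ≤ Real.sin x := by
  have hder : ∀ t, HasDerivAt (fun t : ℝ => Real.sin t - (t - t ^ 3 / 6))
      (Real.cos t - (1 - t ^ 2 / 2)) t := by
    intro t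
    refine ((Real.hasDerivAt_sin t).sub ((hasDerivAt_id t).sub
      ((hasDerivAt_pow 3 t).div_const 6))).congr_deriv ?_
    push_cast
    ring
  have hmono : MonotoneOn (fun t : ℝ => Real.sin t - (t - t ^ 3 / 6)) (Set.Ici (0 : ℝ)) := by
    refine monotoneOn_of_deriv_nonneg (convex_Ici _)
      (fun t _ => (hder t).continuousAt.continuousWithinAt)
      (fun t _ => (hder t).differentiableAt.differentiableWithinAt) fun t ht => ?_
    rw [(hder t).deriv]
    have := cos_ge2 t
    linarith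
  have h := hmono (a := 0) Set.self_mem_Ici h0 h0
  norm_num at h
  linarith

theorem cos_le4 {x : ℝ} (h0 : 0 ≤ x) : Real.cos x ≤ 1 - x ^ 2 / 2 + x ^ 4 / 24 := by
  have hder : ∀ t, HasDerivAt (fun t : ℝ => (1 - t ^ 2 / 2 + t ^ 4 / 24) - Real.cos t)
      (Real.sin t - (t - t ^ 3 / 6)) t := by
    intro t
    refine ((((hasDerivAt_const t (1:ℝ)).sub ((hasDerivAt_pow 2 t).div_const 2)).add
      ((hasDerivAt_pow 4 t).div_const 24)).sub (Real.hasDerivAt_cos t)).congr_deriv ?_
    push_cast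
    ring
  have hmono : MonotoneOn (fun t : ℝ => (1 - t ^ 2 / 2 + t ^ 4 / 24) - Real.cos t)
      (Set.Ici (0 : ℝ)) := by
    refine monotoneOn_of_deriv_nonneg (convex_Ici _)
      (fun t _ => (hder t).continuousAt.continuousWithinAt)
      (fun t _ => (hder t).differentiableAt.differentiableWithinAt) fun t ht => ?_
    rw [(hder t).deriv]
    have := sin_ge3 (interior_subset ht : t ∈ Set.Ici (0:ℝ))
    linarith
  have h := hmono (a := 0) Set.self_mem_Ici h0 h0
  norm_num at h
  linarith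

theorem sin_le5 {x : ℝ} (h0 : 0 ≤ x) : Real.sin x ≤ x - x ^ 3 / 6 + x ^ 5 / 120 := by
  have hder : ∀ t, HasDerivAt (fun t : ℝ => (t - t ^ 3 / 6 + t ^ 5 / 120) - Real.sin t)
      ((1 - t ^ 2 / 2 + t ^ 4 / 24) - Real.cos t) t := by
    intro t
    refine ((((hasDerivAt_id t).sub ((hasDerivAt_pow 3 t).div_const 6)).add
      ((hasDerivAt_pow 5 t).div_const 120)).sub (Real.hasDerivAt_sin t)).congr_deriv ?_
    push_cast
    ring
  have hmono : MonotoneOn (fun t : ℝ => (t - t ^ 3 / 6 + t ^ 5 / 120) - Real.sin t)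
      (Set.Ici (0 : ℝ)) := by
    refine monotoneOn_of_deriv_nonneg (convex_Ici _)
      (fun t _ => (hder t).continuousAt.continuousWithinAt)
      (fun t _ => (hder t).differentiableAt.differentiableWithinAt) fun t ht => ?_
    rw [(hder t).deriv]
    have := cos_le4 (interior_subset ht : t ∈ Set.Ici (0:ℝ))
    linarith
  have h := hmono (a := 0) Set.self_mem_Ici h0 h0
  norm_num at h
  linarith

theorem cos_ge6 {x : ℝ} (h0 : 0 ≤ x) : 1 - x ^ 2 / 2 + x ^ 4 / 24 - x ^ 6 / 720 ≤ Real.cos x := by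
  have hder : ∀ t, HasDerivAt (fun t : ℝ => Real.cos t - (1 - t ^ 2 / 2 + t ^ 4 / 24 - t ^ 6 / 720))
      ((t - t ^ 3 / 6 + t ^ 5 / 120) - Real.sin t) t := by
    intro t
    refine ((Real.hasDerivAt_cos t).sub ((((hasDerivAt_const t (1:ℝ)).sub
      ((hasDerivAt_pow 2 t).div_const 2)).add
      ((hasDerivAt_pow 4 t).div_const 24)).sub ((hasDerivAt_pow 6 t).div_const 720))).congr_deriv ?_
    push_cast
    ring
  have hmono : MonotoneOn (fun t : ℝ => Real.cos t - (1 - t ^ 2 / 2 + t ^ 4 / 24 - t ^ 6 / 720))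
      (Set.Ici (0 : ℝ)) := by
    refine monotoneOn_of_deriv_nonneg (convex_Ici _)
      (fun t _ => (hder t).continuousAt.continuousWithinAt)
      (fun t _ => (hder t).differentiableAt.differentiableWithinAt) fun t ht => ?_
    rw [(hder t).deriv]
    have := sin_le5 (interior_subset ht : t ∈ Set.Ici (0:ℝ))
    linarith
  have h := hmono (a := 0) Set.self_mem_Ici h0 h0
  norm_num at h
  linarith

theorem sin_ge7 {x : ℝ} (h0 : 0 ≤ x) :
    x - x ^ 3 / 6 + x ^ 5 / 120 - x ^ 7 / 5040 ≤ Real.sin x := by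
  have hder : ∀ t, HasDerivAt
      (fun t : ℝ => Real.sin t - (t - t ^ 3 / 6 + t ^ 5 / 120 - t ^ 7 / 5040))
      (Real.cos t - (1 - t ^ 2 / 2 + t ^ 4 / 24 - t ^ 6 / 720)) t := by
    intro t
    refine ((Real.hasDerivAt_sin t).sub ((((hasDerivAt_id t).sub
      ((hasDerivAt_pow 3 t).div_const 6)).add
      ((hasDerivAt_pow 5 t).div_const 120)).sub
      ((hasDerivAt_pow 7 t).div_const 5040))).congr_deriv ?_
    push_cast
    ring
  have hmono : MonotoneOn
      (fun t : ℝ => Real.sin t - (t - t ^ 3 / 6 + t ^ 5 / 120 - t ^ 7 / 5040))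
      (Set.Ici (0 : ℝ)) := by
    refine monotoneOn_of_deriv_nonneg (convex_Ici _)
      (fun t _ => (hder t).continuousAt.continuousWithinAt)
      (fun t _ => (hder t).differentiableAt.differentiableWithinAt) fun t ht => ?_
    rw [(hder t).deriv]
    have := cos_ge6 (interior_subset ht : t ∈ Set.Ici (0:ℝ))
    linarith
  have h := hmono (a := 0) Set.self_mem_Ici h0 h0
  norm_num at h
  linarith

theorem cos_le8 {x : ℝ} (h0 : 0 ≤ x) :
    Real.cos x ≤ 1 - x ^ 2 / 2 + x ^ 4 / 24 - x ^ 6 / 720 + x ^ 8 / 40320 := by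
  have hder : ∀ t, HasDerivAt
      (fun t : ℝ => (1 - t ^ 2 / 2 + t ^ 4 / 24 - t ^ 6 / 720 + t ^ 8 / 40320) - Real.cos t)
      (Real.sin t - (t - t ^ 3 / 6 + t ^ 5 / 120 - t ^ 7 / 5040)) t := by
    intro t
    refine ((((((hasDerivAt_const t (1:ℝ)).sub ((hasDerivAt_pow 2 t).div_const 2)).add
      ((hasDerivAt_pow 4 t).div_const 24)).sub ((hasDerivAt_pow 6 t).div_const 720)).add
      ((hasDerivAt_pow 8 t).div_const 40320)).sub (Real.hasDerivAt_cos t)).congr_deriv ?_
    push_cast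
    ring
  have hmono : MonotoneOn
      (fun t : ℝ => (1 - t ^ 2 / 2 + t ^ 4 / 24 - t ^ 6 / 720 + t ^ 8 / 40320) - Real.cos t)
      (Set.Ici (0 : ℝ)) := by
    refine monotoneOn_of_deriv_nonneg (convex_Ici _)
      (fun t _ => (hder t).continuousAt.continuousWithinAt)
      (fun t _ => (hder t).differentiableAt.differentiableWithinAt) fun t ht => ?_
    rw [(hder t).deriv]
    have := sin_ge7 (interior_subset ht : t ∈ Set.Ici (0:ℝ))
    linarith
  have h := hmono (a := 0) Set.self_mem_Ici h0 h0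
  norm_num at h
  linarith

end

end Pool.Agent.PEN.E5.EN
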