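import Pool.Agent.Helper53.EN.Sound

/-! # A first certificate of the interval engine (helper9): the weak side is at most .45 -/

set_option autoImplicit false

namespace Pool.Agent.PEN.E5.EN

def e45_lin : List (List (ℕ × ℕ) × ℕ × ℕ) := [
  ([(0, 1), (0, 1), (0, 1), (0, 1), (0, 1)], 3072, 0),
  ([(1, 0), (1, 0), (1, 0), (1, 0), (1, 0)], 0, 3082),
  ([(0, 0), (0, 0), (1, 0), (1, 0)], 0, 564)]

def e45_blk : List (List (ℕ × ℕ)) := [[(0, 2), (1, 3), (2, 2), (3, 2), (4, 3)]]

def e45_box : List (ℕ × ℕ) := [(0, 1024), (0, 1024), (0, 1024), (0, 1024), (0, 1024)]

def e45_crt : List ℕ := [
  281690597498882, 281690597502978, 4731187206, 69819038695429, 8388608006, 24945237164037,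
  5402271750, 5066727430, 4563415046, 281551380152323, 31404834422789, 0,
  281686034096130, 281551380152323, 31404834422789, 0, 281685530783746, 32160748666885,
  67138979102725, 21577982803973, 281552000909315, 0, 281685195239426, 281559517106179,
  64733797416965, 4096, 2365599750, 43980498665477, 48516000907269, 281553108213763,
  281546011455491, 281688282243074, 8192, 281688231911426, 3540004870, 37108550991877,
  59854714568709, 281552806215683, 0, 281687057506306, 37039831515141, 15854473222,
  69612846710789, 281548611919875, 281547420741635, 281686872956930, 281685681778690, 281548796469251,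
  281547605291011, 281686688407554, 281685497229314, 281548981018627, 281547789840387, 281686503858178,
  281685312679938, 281552839770115, 0, 16904991277060, 281686470303746, 34291052445701,
  0, 281685866323970, 69819005140997, 8388608006, 24945170055173, 5402275846,
  5066731526, 32160748666885, 4898959366, 281551380152323, 31404834422789, 0,
  281685698551810, 281560574083075, 69063090896901, 16384, 281685530779650, 67138945548293,
  32160748666885, 69406721835013, 16836338909189, 281552386785283, 0, 281685195235330,
  281559517118467, 64733763862533, 16384, 2365595654, 48515967352837, 43980498665477,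
  281546011451395, 281553108217859, 281681185480706, 8192, 281688231915522, 3540000774,
  59854681014277, 37108550991877, 70231355555845, 281552839770115, 0, 281687057510402,
  37039831515141, 15854485510, 69612880265221, 281547420737539, 281548611923971, 281685681774594,
  281686872961026, 281547605286915, 281548796473347, 281685497225218, 281686688411650, 281547789836291,
  281548981022723, 281685312675842, 281686503862274, 281552839770115, 0, 16905058385924,
  281686470307842, 34291052445701, 0]


set_option maxRecDepth 100000 in
theorem e45_acc : accept (S2 e45_lin e45_blk) 200 e45_box e45_crt = true := by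
  decide +kernel

end Pool.Agent.PEN.E5.EN
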